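import Pool.Agent.Lib.MP_85963d_gt.H69.Rest

/-!
# Norms (module ENER1, sixth part)
-/

set_option autoImplicit false

open MeasureTheory Set Filter Topology Quaternion
open scoped Real ContDiff

namespace Pool.Agent.MP85963d.H69

open SF

/-! ### The `L²` norm -/

theorem nrm_add_le {f g : ℍ → ℝ} (hf : ContinuousOn f {0}ᶜ) (hg : ContinuousOn g {0}ᶜ) :
    nrm (fun x => f x + g x) ≤ nrm f + nrm g := by
  have h1 := abs_ip_le hf hg
  have i1 : IntegrableOn (fun x => f x ^ 2) shell := integrableOn_shell (hf.pow 2)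
  have i2 : IntegrableOn (fun x => g x ^ 2) shell := integrableOn_shell (hg.pow 2)
  have i3 : IntegrableOn (fun x => 2 * (f x * g x)) shell :=
    (integrableOn_shell (hf.mul hg)).const_mul 2
  have h2 : nrm (fun x => f x + g x) ^ 2 = nrm f ^ 2 + 2 * ip f g + nrm g ^ 2 := by
    rw [nrm_sq, nrm_sq, nrm_sq, ip]
    have e : (fun x => (f x + g x) ^ 2) = fun x => (f x ^ 2 + 2 * (f x * g x)) + g x ^ 2 := by
      funext x; ring
    have i4 : IntegrableOn (fun x => f x ^ 2 + 2 * (f x * g x)) shell := i1.add i3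
    rw [e, integral_add i4 i2, integral_add i1 i3, integral_const_mul]
  have h3 := le_abs_self (ip f g)
  have n1 := nrm_nonneg f
  have n2 := nrm_nonneg g
  have n3 := nrm_nonneg (fun x => f x + g x)
  nlinarith

theorem nrm_mono {f g : ℍ → ℝ} (hf : ContinuousOn f {0}ᶜ) (hg : ContinuousOn g {0}ᶜ)
    (h : ∀ x : ℍ, |f x| ≤ g x) : nrm f ≤ nrm g := by
  rw [nrm, nrm]
  apply Real.sqrt_le_sqrt
  apply setIntegral_mono (integrableOn_shell (hf.pow 2)) (integrableOn_shell (hg.pow 2))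
  intro x
  change f x ^ 2 ≤ g x ^ 2
  rw [← sq_abs (f x)]
  exact pow_le_pow_left₀ (abs_nonneg _) (h x) 2

theorem nrm_const_mul {c : ℝ} (hc : 0 ≤ c) (f : ℍ → ℝ) : nrm (fun x => c * f x) = c * nrm f := by
  rw [nrm, nrm]
  simp only [mul_pow]
  rw [integral_const_mul, Real.sqrt_mul (sq_nonneg c), Real.sqrt_sq hc]

theorem nrm_abs (f : ℍ → ℝ) : nrm (fun x => |f x|) = nrm f := by
  rw [nrm, nrm]; simp only [sq_abs]

theorem nrm_zero : nrm (fun _ => (0 : ℝ)) = 0 := by simp [nrm]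

theorem nrm_sum_le {α : Type} (s : Finset α) (f : α → ℍ → ℝ)
    (hf : ∀ a ∈ s, ContinuousOn (f a) {0}ᶜ) :
    nrm (fun x => ∑ a ∈ s, f a x) ≤ ∑ a ∈ s, nrm (f a) := by
  classical
  induction s using Finset.induction_on with
  | empty => simp [nrm_zero]
  | insert a s ha ih =>
    simp only [Finset.sum_insert ha]
    refine (nrm_add_le (hf a (Finset.mem_insert_self a s)) ?_).trans
      (add_le_add le_rfl (ih fun b hb => hf b (Finset.mem_insert_of_mem hb)))
    exact continuousOn_finsetSum s fun b hb => hf b (Finset.mem_insert_of_mem hb)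

theorem nrm_SF_add (F G : SF) : nrm (F + G : SF) ≤ nrm F + nrm G := by
  have := nrm_add_le F.continuousOn G.continuousOn
  have e : ((F + G : SF) : ℍ → ℝ) = fun x => F x + G x := funext fun x => add_apply F G x
  rwa [e]

theorem nrm_Lap_le (F : SF) : nrm (Lap F) ≤ ∑ a, nrm (DZ a (DZ a F)) := by
  rw [Lap_eq, Fin.sum_univ_three]
  exact (nrm_SF_add _ _).trans (add_le_add (nrm_SF_add _ _) le_rfl)

/-! ### Bounds for words -/

theorem continuousOn_J (k : ℕ) (y : SF) : ContinuousOn (J k y) {0}ᶜ :=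
  continuousOn_finsetSum _ fun l _ => (word l y).continuousOn.abs

theorem nrm_J_le {k : ℕ} {y : SF} {M : ℝ} (h : ∀ l : List (Fin 6), l.length ≤ k →
    nrm (word l y) ≤ M) : nrm (J k y) ≤ (Wd k).card * M := by
  have h1 := nrm_sum_le (Wd k) (fun l x => |(word l y) x|)
    fun l _ => (word l y).continuousOn.abs
  refine h1.trans ?_
  have h2 := Finset.sum_le_card_nsmul (Wd k) (fun l => nrm (fun x => |(word l y) x|)) M
    fun l hl => by rw [nrm_abs]; exact h l (mem_Wd.1 hl)
  rwa [nsmul_eq_mul] at h2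

theorem nrm_J_sq_le {k : ℕ} {y : SF} {M : ℝ} (h : ∀ l : List (Fin 6), l.length ≤ k →
    nrm (fun x => (word l y) x ^ 2) ≤ M) :
    nrm (fun x => J k y x ^ 2) ≤ (Wd k).card * ((Wd k).card * M) := by
  have c1 : ∀ l : List (Fin 6), ContinuousOn (fun x => (word l y) x ^ 2) {0}ᶜ :=
    fun l => (word l y).continuousOn.pow 2
  have c2 : ContinuousOn (fun x => ∑ l ∈ Wd k, (word l y) x ^ 2) {0}ᶜ :=
    continuousOn_finsetSum _ fun l _ => c1 l
  have h0 : nrm (fun x => J k y x ^ 2) ≤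
      nrm (fun x => (Wd k).card * ∑ l ∈ Wd k, (word l y) x ^ 2) := by
    refine nrm_mono ((continuousOn_J k y).pow 2) (continuousOn_const.mul c2) fun x => ?_
    rw [abs_of_nonneg (sq_nonneg _)]
    have := sq_sum_le_card_mul_sum_sq (s := Wd k) (f := fun l => |(word l y) x|)
    simp only [sq_abs] at this
    exact this
  refine h0.trans ?_
  rw [nrm_const_mul (Nat.cast_nonneg _)]
  refine mul_le_mul_of_nonneg_left ?_ (Nat.cast_nonneg _)
  refine (nrm_sum_le (Wd k) (fun l x => (word l y) x ^ 2) fun l _ => c1 l).trans ?_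
  have h2 := Finset.sum_le_card_nsmul (Wd k) (fun l => nrm (fun x => (word l y) x ^ 2)) M
    fun l hl => h l (mem_Wd.1 hl)
  rwa [nsmul_eq_mul] at h2

/-- all fields are dominated by the left fields -/
theorem dom (hCas : CasFacts) (i : Fin 6) (G : SF) (x : ℍ) :
    |(Dlet i G) x| ≤ ∑ a, |(DZ a G) x| := by
  by_cases hx : x = 0
  · subst hx; simp [map_zero']
  have hz : ∀ c : Fin 3, |(DZ c G) x| ≤ ∑ a, |(DZ a G) x| := fun c =>
    Finset.single_le_sum (f := fun a => |(DZ a G) x|) (fun _ _ => abs_nonneg _)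
      (Finset.mem_univ c)
  obtain ⟨e, u, v, h1, h2, h3, h4⟩ := hCas.frame
  have key : ∀ (f : Fin 3 → SF) (V : E3), ‖V‖ = 1 → (∀ a, (f a) x = V a) →
      |(∑ a, f a * DZ a G : SF) x| ≤ ∑ a, |(DZ a G) x| := by
    intro f V hV hf
    rw [sum_apply]
    refine (Finset.abs_sum_le_sum_abs _ _).trans (Finset.sum_le_sum fun a _ => ?_)
    rw [mul_apply, abs_mul, hf]
    have : |V a| ≤ 1 := by
      rw [← hV, ← Real.norm_eq_abs]
      exact PiLp.norm_apply_le V a
    calc |V a| * |(DZ a G) x| ≤ 1 * |(DZ a G) x| :=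
          mul_le_mul_of_nonneg_right this (abs_nonneg _)
      _ = _ := one_mul _
  fin_cases i
  · change |(DX G) x| ≤ _
    rw [h2]
    exact key e (fe x) (norm_fe hx) fun a => (h1 a x hx).1
  · change |(DV G) x| ≤ _
    rw [h3]
    exact key u (fu x) (norm_fu hx) fun a => (h1 a x hx).2.1
  · change |(DH G) x| ≤ _
    rw [h4, neg_apply, abs_neg]
    exact key v (fv x) (norm_fv hx) fun a => (h1 a x hx).2.2
  · exact hz 0
  · exact hz 1
  · exact hz 2

theorem Dlet_comm (j : Fin 6) : (∀ (a : Fin 3) (F : SF), Dlet j (DZ a F) = DZ a (Dlet j F)) ∨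
    ∃ c, Dlet j = DZ c := by
  fin_cases j
  · exact Or.inl fun a F => DX_DZ a F
  · exact Or.inl fun a F => DV_DZ a F
  · exact Or.inl fun a F => DH_DZ a F
  · exact Or.inr ⟨0, rfl⟩
  · exact Or.inr ⟨1, rfl⟩
  · exact Or.inr ⟨2, rfl⟩

/-- sup bounds for words of length at most two -/
theorem sup_word (hCas : CasFacts) {y : SF} {x : ℍ} {S : ℝ} (h0 : |y x| ≤ S)
    (h1 : ∀ a, |(DZ a y) x| ≤ S) (h2 : ∀ a b, |(DZ a (DZ b y)) x| ≤ S)
    (l : List (Fin 6)) (hl : l.length ≤ 2) : |(word l y) x| ≤ 9 * S := by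
  have hS : 0 ≤ S := (abs_nonneg _).trans h0
  rcases l with _ | ⟨i, _ | ⟨j, _ | ⟨k, l⟩⟩⟩
  · rw [word_nil]; linarith
  · rw [word_cons, word_nil]
    refine (dom hCas i y x).trans ?_
    rw [Fin.sum_univ_three]
    linarith [h1 0, h1 1, h1 2]
  · rw [word_cons, word_cons, word_nil]
    refine (dom hCas i _ x).trans ?_
    have key : ∀ a, |(DZ a (Dlet j y)) x| ≤ 3 * S := by
      intro a
      rcases Dlet_comm j with h | ⟨c, h⟩
      · rw [← h]
        refine (dom hCas j _ x).trans ?_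
        rw [Fin.sum_univ_three]
        linarith [h2 0 a, h2 1 a, h2 2 a]
      · rw [h]
        linarith [h2 a c]
    rw [Fin.sum_univ_three]
    linarith [key 0, key 1, key 2]
  · simp only [List.length_cons] at hl; omega

end Pool.Agent.MP85963d.H69
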