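import Pool.Agent.Lib.MP_85963d_gt.H69.Cls

/-!
# Classes of the basic expressions (module ENER1, fourth part)
-/

set_option autoImplicit false

open MeasureTheory Set Filter Topology Quaternion
open scoped Real ContDiff

namespace Pool.Agent.MP85963d.H69

open SF

/-- the letters of the left fields -/
def zl : Fin 3 → Fin 6 := ![3, 4, 5]

theorem Dlet_zl (c : Fin 3) : Dlet (zl c) = DZ c := by fin_cases c <;> rfl

theorem Dlet_0 : Dlet 0 = DX := rfl
theorem Dlet_1 : Dlet 1 = DV := rfl
theorem Dlet_2 : Dlet 2 = DH := rfl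

theorem word_cons (i : Fin 6) (l : List (Fin 6)) (F : SF) : word (i :: l) F = Dlet i (word l F) :=
  rfl

theorem word_nil (F : SF) : word [] F = F := rfl

theorem DV_DX (F : SF) : DV (DX F) = DX (DV F) + DH F := by
  have := DX_DV F
  rw [← sub_eq_zero] at this ⊢
  rw [← neg_eq_zero, ← this]
  ring

namespace Fam

variable {ι : Type} {A : Fam ι}

theorem le_om {l : List (Fin 6)} (h : l.length ≤ 2) (i : ι) (x : ℍ) :
    |(word l (A.y i)) x| ≤ A.B * A.om 0 i x := by
  have h1 := le_J h (A.y i) x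
  have h2 := A.hB
  have h3 := J_nonneg 2 (A.y i) x
  rw [om0]
  nlinarith

theorem le_om1 {l : List (Fin 6)} (h : l.length ≤ 3) (i : ι) (x : ℍ) :
    |(word l (A.y i)) x| ≤ A.B * A.om 1 i x := by
  have h1 := le_J h (A.y i) x
  have h2 := A.hB
  have h3 := J_nonneg 3 (A.y i) x
  rw [om1]
  nlinarith

theorem K_P : A.K 0 (fun i => A.P i) (fun i => A.p i) :=
  K_lin 0 (fun F => F) (fun _ _ => rfl) A.B A.B0
    (fun i x => A.bd i [] (by simp) x) (fun i x => A.bd i [1] (by simp) x)
    (fun i x => le_om (l := []) (by simp) i x) (fun i x => le_om (l := [1]) (by simp) i x)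

theorem K_Q : A.K 0 (fun i => DX (A.P i)) (fun i => DX (A.p i)) :=
  K_lin 0 (fun F => DX F) (fun _ _ => map_add _ _ _) A.B A.B0
    (fun i x => A.bd i [0] (by simp) x) (fun i x => A.bd i [1, 0] (by simp) x)
    (fun i x => le_om (l := [0]) (by simp) i x) (fun i x => le_om (l := [1, 0]) (by simp) i x)

theorem K_ZP (c : Fin 3) : A.K 0 (fun i => DZ c (A.P i)) (fun i => DZ c (A.p i)) := by
  rw [← Dlet_zl]
  exact K_lin 0 (fun F => Dlet (zl c) F) (fun _ _ => map_add _ _ _) A.B A.B0
    (fun i x => A.bd i [zl c] (by simp) x) (fun i x => A.bd i [1, zl c] (by simp) x)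
    (fun i x => le_om (l := [zl c]) (by simp) i x)
    (fun i x => le_om (l := [1, zl c]) (by simp) i x)

theorem K_ZQ (c : Fin 3) : A.K 0 (fun i => DZ c (DX (A.P i))) (fun i => DZ c (DX (A.p i))) := by
  have e := Dlet_zl c
  refine K_lin 0 (fun F => DZ c (DX F)) (fun _ _ => by rw [map_add, map_add]) A.B A.B0
    (fun i x => ?_) (fun i x => ?_) (fun i x => ?_) (fun i x => ?_)
  · have := A.bd i [zl c, 0] (by simp) x
    rwa [word_cons, e] at this
  · have := A.bd i [1, zl c, 0] (by simp) x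
    rwa [word_cons, word_cons, e] at this
  · have := le_om (A := A) (l := [zl c, 0]) (by simp) i x
    rwa [word_cons, e] at this
  · have := le_om (A := A) (l := [zl c, 2]) (by simp) i x
    rw [word_cons, e] at this
    rw [DV_DZ, DV_DX, DV_of_isU (A.isUy i), map_zero, zero_add]
    exact this

theorem K_ZZP (d c : Fin 3) :
    A.K 0 (fun i => DZ d (DZ c (A.P i))) (fun i => DZ d (DZ c (A.p i))) := by
  have e := Dlet_zl c
  have e' := Dlet_zl d
  refine K_lin 0 (fun F => DZ d (DZ c F)) (fun _ _ => by rw [map_add, map_add]) A.B A.B0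
    (fun i x => ?_) (fun i x => ?_) (fun i x => ?_) (fun i x => ?_)
  · have := A.bd i [zl d, zl c] (by simp) x
    rwa [word_cons, e', word_cons, e] at this
  · have := A.bd i [1, zl d, zl c] (by simp) x
    rwa [word_cons, word_cons, e', word_cons, e] at this
  · have := le_om (A := A) (l := [zl d, zl c]) (by simp) i x
    rwa [word_cons, e', word_cons, e] at this
  · rw [DV_DZ, DV_DZ, DV_of_isU (A.isUy i), map_zero, map_zero, zero_apply, abs_zero]
    exact mul_nonneg A.B0 (A.om_nonneg _ _ _)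

theorem K_ZZQ (d c : Fin 3) :
    A.K 1 (fun i => DZ d (DZ c (DX (A.P i)))) (fun i => DZ d (DZ c (DX (A.p i)))) := by
  have e := Dlet_zl c
  have e' := Dlet_zl d
  refine K_lin 1 (fun F => DZ d (DZ c (DX F))) (fun _ _ => by rw [map_add, map_add, map_add])
    A.B A.B0 (fun i x => ?_) (fun i x => ?_) (fun i x => ?_) (fun i x => ?_)
  · have := A.bd i [zl d, zl c, 0] (by simp) x
    rwa [word_cons, e', word_cons, e] at this
  · have := A.bd i [1, zl d, zl c, 0] (by simp) x
    rwa [word_cons, word_cons, e', word_cons, e] at this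
  · have := le_om1 (A := A) (l := [zl d, zl c, 0]) (by simp) i x
    rwa [word_cons, e', word_cons, e] at this
  · have := le_om1 (A := A) (l := [zl d, zl c, 2]) (by simp) i x
    rw [word_cons, e', word_cons, e] at this
    rw [DV_DZ, DV_DZ, DV_DX, DV_of_isU (A.isUy i), map_zero, zero_add]
    exact this

theorem K_XXP : A.K 0 (fun i => DX (DX (A.P i))) (fun i => DX (DX (A.p i))) := by
  have hB := A.B0
  refine K_lin 0 (fun F => DX (DX F)) (fun _ _ => by rw [map_add, map_add]) (2 * A.B)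
    (by linarith) (fun i x => ?_) (fun i x => ?_) (fun i x => ?_) (fun i x => ?_)
  · have := A.bd i [0, 0] (by simp) x
    exact this.trans (by linarith)
  · have := A.bd i [1, 0, 0] (by simp) x
    exact this.trans (by linarith)
  · have := le_om (A := A) (l := [0, 0]) (by simp) i x
    exact this.trans (by nlinarith [A.om_nonneg 0 i x])
  · have h1 := le_om (A := A) (l := [0, 2]) (by simp) i x
    have h2 := le_om (A := A) (l := [2, 0]) (by simp) i x
    rw [DV_DX, DV_DX, DV_of_isU (A.isUy i), map_zero, zero_add, add_apply]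
    calc _ ≤ |(DX (DH (A.y i))) x| + |(DH (DX (A.y i))) x| := abs_add_le _ _
      _ ≤ A.B * A.om 0 i x + A.B * A.om 0 i x := add_le_add h1 h2
      _ = _ := by ring

theorem K_ZXXP (c : Fin 3) :
    A.K 1 (fun i => DZ c (DX (DX (A.P i)))) (fun i => DZ c (DX (DX (A.p i)))) := by
  have hB := A.B0
  have e := Dlet_zl c
  refine K_lin 1 (fun F => DZ c (DX (DX F))) (fun _ _ => by rw [map_add, map_add, map_add])
    (2 * A.B) (by linarith) (fun i x => ?_) (fun i x => ?_) (fun i x => ?_) (fun i x => ?_)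
  · have := A.bd i [zl c, 0, 0] (by simp) x
    rw [word_cons, e] at this
    exact this.trans (by linarith)
  · have := A.bd i [1, zl c, 0, 0] (by simp) x
    rw [word_cons, word_cons, e] at this
    exact this.trans (by linarith)
  · have := le_om1 (A := A) (l := [zl c, 0, 0]) (by simp) i x
    rw [word_cons, e] at this
    exact this.trans (by nlinarith [A.om_nonneg 1 i x])
  · have h1 := le_om1 (A := A) (l := [zl c, 0, 2]) (by simp) i x
    have h2 := le_om1 (A := A) (l := [zl c, 2, 0]) (by simp) i x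
    rw [word_cons, e] at h1 h2
    rw [DV_DZ, DV_DX, DV_DX, DV_of_isU (A.isUy i), map_zero, zero_add, map_add, add_apply]
    calc _ ≤ |(DZ c (DX (DH (A.y i)))) x| + |(DZ c (DH (DX (A.y i)))) x| := abs_add_le _ _
      _ ≤ A.B * A.om 1 i x + A.B * A.om 1 i x := add_le_add h1 h2
      _ = _ := by ring

/-! ### Compositions -/

theorem kk_cm (φ : Sm) : A.kk 0 (fun i => cm φ (A.P i)) (fun i => cm φ (A.p i)) := by
  have hB := A.hB
  set S : Set (ℝ × ℝ) := Icc A.c (2 * A.B) ×ˢ Icc (-(2 * A.B)) (2 * A.B) with hS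
  have hcomp : IsCompact S := isCompact_Icc.prod isCompact_Icc
  have hconv : Convex ℝ S := (convex_Icc _ _).prod (convex_Icc _ _)
  have hsub : S ⊆ Om := fun z hz => A.hc.trans_le hz.1.1
  obtain ⟨C1, hC1⟩ := hcomp.exists_bound_of_continuousOn (φ.sm.continuousOn.mono hsub)
  have hfd : ContinuousOn (fderiv ℝ φ.f) S :=
    ((φ.sm.fderiv_of_isOpen isOpen_Om (m := ∞) (by simp)).continuousOn).mono hsub
  obtain ⟨C2, hC2⟩ := hcomp.exists_bound_of_continuousOn hfd
  have hmem : ∀ i (x : ℍ), x ≠ 0 → ((A.P i) x, (DX (A.P i)) x) ∈ S ∧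
      ((A.p i) x, (DX (A.p i)) x) ∈ S := by
    intro i x hx
    have b0 := A.bd i [] (by simp) x
    have b1 := A.bd i [0] (by simp) x
    have y0 := le_J (l := []) (k := 2) (by simp) (A.y i) x
    have y1 := le_J (l := [0]) (k := 2) (by simp) (A.y i) x
    have j := A.j2 i x
    have e0 : (A.P i) x = (A.p i) x + (A.y i) x := add_apply _ _ _
    have e1 : (DX (A.P i)) x = (DX (A.p i)) x + (DX (A.y i)) x := by
      rw [P, map_add, add_apply]
    have l1 := A.low i x hx
    have l2 : A.c ≤ (A.P i) x := A.lowP i x hx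
    rw [word_nil] at b0 y0
    rw [word_cons, word_nil, Dlet_0] at b1 y1
    rw [abs_le] at b0 b1 y0 y1
    refine ⟨⟨⟨l2, ?_⟩, ⟨?_, ?_⟩⟩, ⟨⟨l1, ?_⟩, ⟨?_, ?_⟩⟩⟩
    all_goals
      dsimp only
      linarith [b0.1, b0.2, b1.1, b1.2, y0.1, y0.2, y1.1, y1.2]
  refine ⟨|C1| + 2 * |C2|, by positivity, fun i x => ?_⟩
  by_cases hx : x = 0
  · subst hx
    simp only [map_zero', sub_zero, abs_zero]
    exact ⟨by positivity, mul_nonneg (by positivity) (A.om_nonneg _ _ _)⟩
  · obtain ⟨m1, m2⟩ := hmem i x hx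
    rw [cm_apply _ (A.pos_P i) hx, cm_apply _ (A.pos_p i) hx]
    constructor
    · have := hC1 _ m2
      rw [Real.norm_eq_abs] at this
      linarith [le_abs_self C1, abs_nonneg C2]
    · have h1 := hconv.norm_image_sub_le_of_norm_fderiv_le (𝕜 := ℝ) (f := φ.f) (C := |C2|)
        (fun z hz => φ.diff (hsub hz)) (fun z hz => (hC2 z hz).trans (le_abs_self _)) m2 m1
      rw [Real.norm_eq_abs] at h1
      refine h1.trans ?_
      have e : ((A.P i) x, (DX (A.P i)) x) - ((A.p i) x, (DX (A.p i)) x) =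
          ((A.y i) x, (DX (A.y i)) x) := by
        ext
        · simp [P]
        · simp [P]
      rw [e]
      have y0 := le_J (l := []) (k := 2) (by simp) (A.y i) x
      have y1 := le_J (l := [0]) (k := 2) (by simp) (A.y i) x
      rw [word_nil] at y0
      rw [word_cons, word_nil, Dlet_0] at y1
      have hn : ‖((A.y i) x, (DX (A.y i)) x)‖ ≤ A.om 0 i x := by
        rw [Prod.norm_def, om0]
        exact max_le y0 y1
      have := A.om_nonneg 0 i x
      calc |C2| * ‖((A.y i) x, (DX (A.y i)) x)‖ ≤ |C2| * A.om 0 i x :=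
            mul_le_mul_of_nonneg_left hn (abs_nonneg _)
        _ ≤ _ := by nlinarith [abs_nonneg C1, abs_nonneg C2, mul_nonneg (abs_nonneg C1) this,
                      mul_nonneg (abs_nonneg C2) this]

theorem K_cm (φ : Sm) : A.K 0 (fun i => cm φ (A.P i)) (fun i => cm φ (A.p i)) := by
  refine ⟨kk_cm φ, ?_⟩
  have e1 : (fun i => DV (cm φ (A.P i))) = fun i => cm φ.d1 (A.P i) * DV (A.P i) +
      cm φ.d2 (A.P i) * DV (DX (A.P i)) := funext fun i => fld_cm isFld_DV φ (A.pos_P i)
  have e2 : (fun i => DV (cm φ (A.p i))) = fun i => cm φ.d1 (A.p i) * DV (A.p i) +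
      cm φ.d2 (A.p i) * DV (DX (A.p i)) := funext fun i => fld_cm isFld_DV φ (A.pos_p i)
  rw [e1, e2]
  exact ((kk_cm φ.d1).mul K_P.2 (by norm_num) (by norm_num)).add
    ((kk_cm φ.d2).mul K_Q.2 (by norm_num) (by norm_num))

theorem K_Zcm (φ : Sm) (c : Fin 3) :
    A.K 0 (fun i => DZ c (cm φ (A.P i))) (fun i => DZ c (cm φ (A.p i))) := by
  have e1 : (fun i => DZ c (cm φ (A.P i))) = fun i => cm φ.d1 (A.P i) * DZ c (A.P i) +
      cm φ.d2 (A.P i) * DZ c (DX (A.P i)) :=
    funext fun i => fld_cm (isFld_DZ c) φ (A.pos_P i)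
  have e2 : (fun i => DZ c (cm φ (A.p i))) = fun i => cm φ.d1 (A.p i) * DZ c (A.p i) +
      cm φ.d2 (A.p i) * DZ c (DX (A.p i)) :=
    funext fun i => fld_cm (isFld_DZ c) φ (A.pos_p i)
  rw [e1, e2]
  exact ((K_cm φ.d1).mul 0 (K_ZP c) (by norm_num) (by norm_num)).add
    ((K_cm φ.d2).mul 0 (K_ZQ c) (by norm_num) (by norm_num))

theorem K_one : A.K 0 (fun _ : ι => (1 : SF)) (fun _ => 1) := by
  refine K_const _ 1 zero_le_one (fun i x => ?_) (fun i x => ?_)
  · by_cases hx : x = 0
    · subst hx; simp [map_zero']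
    · rw [one_apply hx]; simp
  · rw [Derivation.map_one_eq_zero, zero_apply]; simp

theorem K_two : A.K 0 (fun _ : ι => (2 : SF)) (fun _ => 2) := by
  have := (K_one (A := A)).add K_one
  have e : (fun _ : ι => (1 : SF) + 1) = fun _ => 2 := by funext; norm_num
  rwa [e] at this

theorem K_four : A.K 0 (fun _ : ι => (4 : SF)) (fun _ => 4) := by
  have := (K_two (A := A)).mul 0 K_two (by norm_num) (by norm_num)
  have e : (fun _ : ι => (2 : SF) * 2) = fun _ => 4 := by funext; norm_num
  rwa [e] at this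

theorem K_LapP : A.K 0 (fun i => Lap (A.P i)) (fun i => Lap (A.p i)) := by
  have := ((K_ZZP (A := A) 0 0).add (K_ZZP 1 1)).add (K_ZZP 2 2)
  simpa only [← Lap_eq] using this

theorem K_LapQ : A.K 1 (fun i => Lap (DX (A.P i))) (fun i => Lap (DX (A.p i))) := by
  have := ((K_ZZQ (A := A) 0 0).add (K_ZZQ 1 1)).add (K_ZZQ 2 2)
  simpa only [← Lap_eq] using this

theorem K_Lapcm (φ : Sm) :
    A.K 1 (fun i => Lap (cm φ (A.P i))) (fun i => Lap (cm φ (A.p i))) := by
  have e1 := fun i => Lap_cm φ (A.pos_P i)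
  have e2 := fun i => Lap_cm φ (A.pos_p i)
  simp only [e1, e2, pow_two]
  refine ((((K_cm _).mul 1 K_LapP (by norm_num) (by norm_num)).add
    ((K_cm _).mul 1 K_LapQ (by norm_num) (by norm_num))).add (K.sum3 fun c => ?_))
  refine (((K_cm _).mul 1 ((K_ZP c).mul 1 (K_ZP c) (by norm_num) (by norm_num)) (by norm_num)
    (by norm_num)).add (K_two.mul 1 ((K_cm _).mul 1 ((K_ZP c).mul 1 (K_ZQ c) (by norm_num)
      (by norm_num)) (by norm_num) (by norm_num)) (by norm_num) (by norm_num))).add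
      ((K_cm _).mul 1 ((K_ZQ c).mul 1 (K_ZQ c) (by norm_num) (by norm_num)) (by norm_num)
        (by norm_num))

end Fam

end Pool.Agent.MP85963d.H69
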