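import Pool.Agent.Lib.MP_85963d_gt.H69.Wt

/-!
# Classes of differential expressions (module ENER1, third part)
-/

set_option autoImplicit false

open MeasureTheory Set Filter Topology Quaternion
open scoped Real ContDiff

namespace Pool.Agent.MP85963d.H69

open SF

/-! ### Sums over words -/

/-- words of length at most `k` -/
noncomputable def Wd (k : ℕ) : Finset (List (Fin 6)) := by
  classical
  exact (Finset.range (k + 1)).biUnion fun m =>
    (Finset.univ : Finset (Fin m → Fin 6)).image fun v => List.ofFn v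

theorem mem_Wd {k : ℕ} {l : List (Fin 6)} : l ∈ Wd k ↔ l.length ≤ k := by
  classical
  simp only [Wd, Finset.mem_biUnion, Finset.mem_range, Finset.mem_image, Finset.mem_univ, true_and]
  constructor
  · rintro ⟨m, hm, v, rfl⟩
    rw [List.length_ofFn]; omega
  · intro h
    exact ⟨l.length, by omega, l.get, List.ofFn_get l⟩

/-- the sum of the absolute values of the derivatives up to order `k` -/
noncomputable def J (k : ℕ) (y : SF) (x : ℍ) : ℝ := ∑ l ∈ Wd k, |(word l y) x|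

theorem J_nonneg (k : ℕ) (y : SF) (x : ℍ) : 0 ≤ J k y x :=
  Finset.sum_nonneg fun _ _ => abs_nonneg _

theorem le_J {k : ℕ} {l : List (Fin 6)} (h : l.length ≤ k) (y : SF) (x : ℍ) :
    |(word l y) x| ≤ J k y x :=
  Finset.single_le_sum (f := fun l => |(word l y) x|) (fun _ _ => abs_nonneg _) (mem_Wd.2 h)

theorem J_mono {k m : ℕ} (h : k ≤ m) (y : SF) (x : ℍ) : J k y x ≤ J m y x :=
  Finset.sum_le_sum_of_subset_of_nonneg (fun l hl => mem_Wd.2 ((mem_Wd.1 hl).trans h))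
    fun _ _ _ => abs_nonneg _

theorem J_le {k : ℕ} {y : SF} {x : ℍ} {S : ℝ} (h : ∀ l : List (Fin 6), l.length ≤ k →
    |(word l y) x| ≤ S) : J k y x ≤ (Wd k).card * S := by
  have := Finset.sum_le_card_nsmul (Wd k) (fun l => |(word l y) x|) S
    fun l hl => h l (mem_Wd.1 hl)
  rwa [nsmul_eq_mul] at this

/-! ### Families -/

/-- A family of functions `p`, with small perturbations `y`. -/
structure Fam (ι : Type) where
  p : ι → SF
  y : ι → SF
  B : ℝ
  c : ℝ
  hB : 1 ≤ B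
  hc : 0 < c
  bd : ∀ i, Bd 8 B (p i)
  low : ∀ i (x : ℍ), x ≠ 0 → c ≤ (p i) x
  lowP : ∀ i (x : ℍ), x ≠ 0 → c ≤ (p i + y i) x
  isUp : ∀ i, IsU (p i)
  isUy : ∀ i, IsU (y i)
  j2 : ∀ i (x : ℍ), J 2 (y i) x ≤ B

namespace Fam

variable {ι : Type} (A : Fam ι)

/-- the perturbed functions -/
def P (i : ι) : SF := A.p i + A.y i

theorem pos_p (i : ι) : Pos (A.p i) := fun x hx => A.hc.trans_le (A.low i x hx)

theorem pos_P (i : ι) : Pos (A.P i) := fun x hx => A.hc.trans_le (A.lowP i x hx)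

theorem B0 : 0 ≤ A.B := zero_le_one.trans A.hB

/-- the sizes -/
noncomputable def om (d : ℕ) (i : ι) (x : ℍ) : ℝ :=
  if d = 0 then J 2 (A.y i) x else if d = 1 then J 3 (A.y i) x else
    J 3 (A.y i) x + J 3 (A.y i) x ^ 2

theorem om0 (i : ι) (x : ℍ) : A.om 0 i x = J 2 (A.y i) x := rfl
theorem om1 (i : ι) (x : ℍ) : A.om 1 i x = J 3 (A.y i) x := rfl
theorem om2 (i : ι) (x : ℍ) : A.om 2 i x = J 3 (A.y i) x + J 3 (A.y i) x ^ 2 := rfl

theorem om_nonneg (d : ℕ) (i : ι) (x : ℍ) : 0 ≤ A.om d i x := by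
  have h2 := J_nonneg 2 (A.y i) x
  have h3 := J_nonneg 3 (A.y i) x
  unfold om
  generalize J 2 (A.y i) x = a at *
  generalize J 3 (A.y i) x = b at *
  split_ifs <;> positivity

theorem om_mono {d e : ℕ} (h : d ≤ e) (he : e ≤ 2) (i : ι) (x : ℍ) :
    A.om d i x ≤ A.om e i x := by
  have h2 := J_nonneg 2 (A.y i) x
  have h3 := J_nonneg 3 (A.y i) x
  have h23 := J_mono (show 2 ≤ 3 by norm_num) (A.y i) x
  have hd : d ≤ 2 := h.trans he
  interval_cases e <;> interval_cases d <;> simp only [om0, om1, om2] <;>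
    generalize J 2 (A.y i) x = a at * <;> generalize J 3 (A.y i) x = b at * <;>
    first | omega | nlinarith

theorem om_mul {d e : ℕ} (h : d + e ≤ 2) (i : ι) (x : ℍ) :
    A.om d i x * A.om e i x ≤ A.B * A.om (d + e) i x := by
  have h2 := J_nonneg 2 (A.y i) x
  have h3 := J_nonneg 3 (A.y i) x
  have hB := A.j2 i x
  have hB1 := A.hB
  have hd : d ≤ 2 := by omega
  have he : e ≤ 2 := by omega
  interval_cases d <;> interval_cases e <;>
    simp only [om0, om1, om2, Nat.zero_add, Nat.add_zero, Nat.reduceAdd] <;>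
    generalize J 2 (A.y i) x = a at * <;> generalize J 3 (A.y i) x = b at * <;>
    first | omega | skip
  · exact mul_le_mul_of_nonneg_right hB h2
  · exact mul_le_mul_of_nonneg_right hB h3
  · exact mul_le_mul_of_nonneg_right hB (by positivity)
  · rw [mul_comm]
    exact mul_le_mul_of_nonneg_right hB h3
  · nlinarith [mul_nonneg (sub_nonneg.2 hB1) (add_nonneg h3 (sq_nonneg b))]
  · rw [mul_comm]
    exact mul_le_mul_of_nonneg_right hB (by positivity)

/-- pairs of families: the second one is bounded, the difference is controlled -/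
def kk (d : ℕ) (F F0 : ι → SF) : Prop :=
  ∃ C : ℝ, 0 ≤ C ∧ ∀ i (x : ℍ), |(F0 i) x| ≤ C ∧ |(F i) x - (F0 i) x| ≤ C * A.om d i x

/-- the same with the derivative along `V` -/
def K (d : ℕ) (F F0 : ι → SF) : Prop :=
  A.kk d F F0 ∧ A.kk d (fun i => DV (F i)) (fun i => DV (F0 i))

variable {A}

theorem kk.mono {d e : ℕ} {F F0 : ι → SF} (h : A.kk d F F0) (hd : d ≤ e) (he : e ≤ 2) :
    A.kk e F F0 := by
  obtain ⟨C, hC, h⟩ := h
  exact ⟨C, hC, fun i x => ⟨(h i x).1, (h i x).2.trans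
    (mul_le_mul_of_nonneg_left (A.om_mono hd he i x) hC)⟩⟩

theorem kk.add {d : ℕ} {F F0 G G0 : ι → SF} (h : A.kk d F F0) (h' : A.kk d G G0) :
    A.kk d (fun i => F i + G i) (fun i => F0 i + G0 i) := by
  obtain ⟨C, hC, h⟩ := h
  obtain ⟨C', hC', h'⟩ := h'
  refine ⟨C + C', by positivity, fun i x => ?_⟩
  obtain ⟨a1, a2⟩ := h i x
  obtain ⟨b1, b2⟩ := h' i x
  simp only [add_apply]
  constructor
  · exact (abs_add_le _ _).trans (add_le_add a1 b1)
  · have e : (F i) x + (G i) x - ((F0 i) x + (G0 i) x) =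
      ((F i) x - (F0 i) x) + ((G i) x - (G0 i) x) := by ring
    rw [e, add_mul]
    exact (abs_add_le _ _).trans (add_le_add a2 b2)

theorem kk.mul {d e f : ℕ} {F F0 G G0 : ι → SF} (h : A.kk d F F0) (h' : A.kk e G G0)
    (hf : d + e ≤ f) (hf2 : f ≤ 2) : A.kk f (fun i => F i * G i) (fun i => F0 i * G0 i) := by
  obtain ⟨C, hC, h⟩ := h
  obtain ⟨C', hC', h'⟩ := h'
  have hB := A.hB
  refine ⟨C * C' * (2 + A.B), by positivity, fun i x => ?_⟩
  obtain ⟨a1, a2⟩ := h i x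
  obtain ⟨b1, b2⟩ := h' i x
  simp only [mul_apply]
  have o1 : A.om d i x ≤ A.om f i x := A.om_mono (by omega) hf2 i x
  have o2 : A.om e i x ≤ A.om f i x := A.om_mono (by omega) hf2 i x
  have o3 : A.om d i x * A.om e i x ≤ A.B * A.om f i x :=
    (A.om_mul (by omega) i x).trans
      (mul_le_mul_of_nonneg_left (A.om_mono hf hf2 i x) (by linarith))
  have n0 := A.om_nonneg f i x
  have n1 := A.om_nonneg d i x
  have n2 := A.om_nonneg e i x
  constructor
  · rw [abs_mul]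
    calc |(F0 i) x| * |(G0 i) x| ≤ C * C' := mul_le_mul a1 b1 (abs_nonneg _) hC
      _ ≤ C * C' * (2 + A.B) := by nlinarith [mul_nonneg hC hC']
  · have e' : (F i) x * (G i) x - (F0 i) x * (G0 i) x =
      ((F i) x - (F0 i) x) * (G0 i) x + (F0 i) x * ((G i) x - (G0 i) x) +
        ((F i) x - (F0 i) x) * ((G i) x - (G0 i) x) := by ring
    rw [e']
    have t1 : |((F i) x - (F0 i) x) * (G0 i) x| ≤ C * C' * A.om f i x := by
      rw [abs_mul]
      calc _ ≤ (C * A.om d i x) * C' := mul_le_mul a2 b1 (abs_nonneg _) (by positivity)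
        _ = C * C' * A.om d i x := by ring
        _ ≤ _ := mul_le_mul_of_nonneg_left o1 (by positivity)
    have t2 : |(F0 i) x * ((G i) x - (G0 i) x)| ≤ C * C' * A.om f i x := by
      rw [abs_mul]
      calc _ ≤ C * (C' * A.om e i x) := mul_le_mul a1 b2 (abs_nonneg _) (by positivity)
        _ = C * C' * A.om e i x := by ring
        _ ≤ _ := mul_le_mul_of_nonneg_left o2 (by positivity)
    have t3 : |((F i) x - (F0 i) x) * ((G i) x - (G0 i) x)| ≤ C * C' * (A.B * A.om f i x) := by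
      rw [abs_mul]
      calc _ ≤ (C * A.om d i x) * (C' * A.om e i x) :=
            mul_le_mul a2 b2 (abs_nonneg _) (by positivity)
        _ = C * C' * (A.om d i x * A.om e i x) := by ring
        _ ≤ _ := mul_le_mul_of_nonneg_left o3 (by positivity)
    calc _ ≤ |((F i) x - (F0 i) x) * (G0 i) x| + |(F0 i) x * ((G i) x - (G0 i) x)| +
          |((F i) x - (F0 i) x) * ((G i) x - (G0 i) x)| := abs_add_three _ _ _
      _ ≤ C * C' * A.om f i x + C * C' * A.om f i x + C * C' * (A.B * A.om f i x) :=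
          add_le_add (add_le_add t1 t2) t3
      _ = _ := by ring

theorem K.mono {d e : ℕ} {F F0 : ι → SF} (h : A.K d F F0) (hd : d ≤ e) (he : e ≤ 2) :
    A.K e F F0 := ⟨h.1.mono hd he, h.2.mono hd he⟩

theorem K.add {d : ℕ} {F F0 G G0 : ι → SF} (h : A.K d F F0) (h' : A.K d G G0) :
    A.K d (fun i => F i + G i) (fun i => F0 i + G0 i) := by
  refine ⟨h.1.add h'.1, ?_⟩
  have := h.2.add h'.2
  simpa only [map_add] using this

theorem K.mul {d e : ℕ} (f : ℕ) {F F0 G G0 : ι → SF} (h : A.K d F F0) (h' : A.K e G G0)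
    (hf : d + e ≤ f) (hf2 : f ≤ 2) : A.K f (fun i => F i * G i) (fun i => F0 i * G0 i) := by
  refine ⟨h.1.mul h'.1 hf hf2, ?_⟩
  have := (h.1.mul h'.2 hf hf2).add (h'.1.mul h.2 (by omega : e + d ≤ f) hf2)
  simpa only [D_mul] using this

theorem K.sum3 {d : ℕ} {F F0 : Fin 3 → ι → SF} (h : ∀ c, A.K d (F c) (F0 c)) :
    A.K d (fun i => ∑ c, F c i) (fun i => ∑ c, F0 c i) := by
  have := ((h 0).add (h 1)).add (h 2)
  simpa only [Fin.sum_univ_three] using this

/-- linear expressions -/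
theorem K_lin (d : ℕ) (T : SF → SF) (hT : ∀ F G, T (F + G) = T F + T G) (C : ℝ) (hC : 0 ≤ C)
    (h1 : ∀ i (x : ℍ), |(T (A.p i)) x| ≤ C) (h2 : ∀ i (x : ℍ), |(DV (T (A.p i))) x| ≤ C)
    (h3 : ∀ i (x : ℍ), |(T (A.y i)) x| ≤ C * A.om d i x)
    (h4 : ∀ i (x : ℍ), |(DV (T (A.y i))) x| ≤ C * A.om d i x) :
    A.K d (fun i => T (A.P i)) (fun i => T (A.p i)) := by
  refine ⟨⟨C, hC, fun i x => ⟨h1 i x, ?_⟩⟩, ⟨C, hC, fun i x => ⟨h2 i x, ?_⟩⟩⟩
  · change |(T (A.p i + A.y i)) x - (T (A.p i)) x| ≤ _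
    rw [hT, add_apply, add_sub_cancel_left]; exact h3 i x
  · change |(DV (T (A.p i + A.y i))) x - (DV (T (A.p i))) x| ≤ _
    rw [hT, map_add, add_apply, add_sub_cancel_left]; exact h4 i x

/-- fixed bounded functions -/
theorem K_const (F : ι → SF) (C : ℝ) (hC : 0 ≤ C) (h1 : ∀ i (x : ℍ), |(F i) x| ≤ C)
    (h2 : ∀ i (x : ℍ), |(DV (F i)) x| ≤ C) : A.K 0 F F := by
  refine ⟨⟨C, hC, fun i x => ⟨h1 i x, ?_⟩⟩, ⟨C, hC, fun i x => ⟨h2 i x, ?_⟩⟩⟩
  all_goals
    rw [sub_self, abs_zero]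
    exact mul_nonneg hC (A.om_nonneg _ _ _)

end Fam

end Pool.Agent.MP85963d.H69
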