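import Pool.Agent.Lib.MP_85963d_gt.Interfaces

/-!
# Smooth functions of `(P, X P)` (module ENER1, first part)
-/

set_option autoImplicit false

open MeasureTheory Set Filter Topology Quaternion
open scoped Real ContDiff

namespace Pool.Agent.MP85963d.H69

open SF

/-! ### Composition -/

/-- the half plane -/
def Om : Set (ℝ × ℝ) := {z | 0 < z.1}

theorem isOpen_Om : IsOpen Om := isOpen_lt continuous_const continuous_fst

/-- smooth functions on the half plane -/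
structure Sm where
  /-- the function -/
  f : ℝ × ℝ → ℝ
  /-- it is smooth -/
  sm : ContDiffOn ℝ ∞ f Om

/-- first partial derivative -/
noncomputable def Sm.d1 (φ : Sm) : Sm :=
  ⟨fun z => fderiv ℝ φ.f z (1, 0),
    (φ.sm.fderiv_of_isOpen isOpen_Om (by simp)).clm_apply contDiffOn_const⟩

/-- second partial derivative -/
noncomputable def Sm.d2 (φ : Sm) : Sm :=
  ⟨fun z => fderiv ℝ φ.f z (0, 1),
    (φ.sm.fderiv_of_isOpen isOpen_Om (by simp)).clm_apply contDiffOn_const⟩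

theorem Sm.diff (φ : Sm) {z : ℝ × ℝ} (hz : z ∈ Om) : DifferentiableAt ℝ φ.f z :=
  (φ.sm.differentiableOn (by simp)).differentiableAt (isOpen_Om.mem_nhds hz)

theorem Sm.fderiv_apply (φ : Sm) {z : ℝ × ℝ} (v : ℝ × ℝ) :
    fderiv ℝ φ.f z v = v.1 * φ.d1.f z + v.2 * φ.d2.f z := by
  have e : v = v.1 • ((1 : ℝ), (0 : ℝ)) + v.2 • ((0 : ℝ), (1 : ℝ)) := by
    ext <;> simp
  conv_lhs => rw [e]
  rw [map_add, map_smul, map_smul]
  rfl

theorem Sm.symm (φ : Sm) {z : ℝ × ℝ} (hz : z ∈ Om) : φ.d1.d2.f z = φ.d2.d1.f z := by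
  have h1 : ContDiffOn ℝ 1 (fderiv ℝ φ.f) Om :=
    (φ.sm.fderiv_of_isOpen isOpen_Om (m := ∞) (by simp)).of_le (by exact_mod_cast le_top)
  have h2 : HasFDerivAt (fderiv ℝ φ.f) (fderiv ℝ (fderiv ℝ φ.f) z) z :=
    ((h1.differentiableOn (by norm_num)).differentiableAt (isOpen_Om.mem_nhds hz)).hasFDerivAt
  have h3 : IsSymmSndFDerivAt ℝ φ.f z := by
    have : ∀ n : ℕ, ContDiffOn ℝ n φ.f Om := fun n => φ.sm.of_le (by exact_mod_cast le_top)
    exact ((this 2).contDiffAt (isOpen_Om.mem_nhds hz)).isSymmSndFDerivAt (by simp)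
  have h4 : ∀ v : ℝ × ℝ, HasFDerivAt (fun z => fderiv ℝ φ.f z v)
      ((fderiv ℝ (fderiv ℝ φ.f) z).flip v) z := by
    intro v
    have := h2.clm_apply (hasFDerivAt_const v z)
    rw [ContinuousLinearMap.comp_zero, zero_add] at this
    exact this
  have e1 : φ.d1.d2.f z = fderiv ℝ (fun z => fderiv ℝ φ.f z (1, 0)) z (0, 1) := rfl
  have e2 : φ.d2.d1.f z = fderiv ℝ (fun z => fderiv ℝ φ.f z (0, 1)) z (1, 0) := rfl
  rw [e1, e2, (h4 _).fderiv, (h4 _).fderiv]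
  exact h3 _ _

/-- positive functions -/
def Pos (P : SF) : Prop := ∀ x : ℍ, x ≠ 0 → 0 < P x

/-- `φ(P, X P)` -/
noncomputable def cm (φ : Sm) (P : SF) : SF := by
  classical
  exact if h : Pos P then SF.of (fun x => φ.f (P x, (DX P) x))
    (φ.sm.comp (P.smooth.prodMk (DX P).smooth) (fun x hx => h x hx))
    (fun r x hr _ => by rw [P.hom hr, (DX P).hom hr]) else 0

theorem cm_apply (φ : Sm) {P : SF} (hP : Pos P) {x : ℍ} (hx : x ≠ 0) :
    (cm φ P) x = φ.f (P x, (DX P) x) := by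
  rw [cm, dif_pos hP, SF.of_apply hx]

theorem fderiv_cm (φ : Sm) {P : SF} (hP : Pos P) {x : ℍ} (hx : x ≠ 0) (v : ℍ) :
    fderiv ℝ (cm φ P) x v = (cm φ.d1 P) x * fderiv ℝ P x v +
      (cm φ.d2 P) x * fderiv ℝ (DX P) x v := by
  have h1 : HasFDerivAt φ.f (fderiv ℝ φ.f (P x, (DX P) x)) (P x, (DX P) x) :=
    (φ.diff (hP x hx)).hasFDerivAt
  have h2 := HasFDerivAt.comp x h1 ((P.hasFDerivAt hx).prodMk ((DX P).hasFDerivAt hx))
  have h3 : HasFDerivAt (cm φ P) _ x := h2.congr_of_eventuallyEq (by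
    filter_upwards [isOpen_ne.mem_nhds (show x ∈ ({0}ᶜ : Set ℍ) from hx)] with y hy
    exact cm_apply φ hP hy)
  rw [h3.fderiv, ContinuousLinearMap.comp_apply, Sm.fderiv_apply, cm_apply _ hP hx,
    cm_apply _ hP hx]
  simp only [ContinuousLinearMap.prod_apply]
  ring

/-- derivations given by linear vector fields -/
def IsFld (D : Derivation ℝ SF SF) : Prop :=
  ∃ A : ℍ →L[ℝ] ℍ, ∀ (F : SF) (x : ℍ), (D F) x = fderiv ℝ F x (A x)

theorem isFld_R (a : ℍ) : IsFld (R a) := ⟨rm a, fun F x => R_apply a F x⟩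

theorem isFld_Z (a : ℍ) : IsFld (Z a) := ⟨lm a, fun F x => Z_apply a F x⟩

theorem isFld_DZ (c : Fin 3) : IsFld (DZ c) := isFld_Z _
theorem isFld_DX : IsFld DX := isFld_R _
theorem isFld_DV : IsFld DV := isFld_R _

theorem fld_cm {D : Derivation ℝ SF SF} (hD : IsFld D) (φ : Sm) {P : SF} (hP : Pos P) :
    D (cm φ P) = cm φ.d1 P * D P + cm φ.d2 P * D (DX P) := by
  obtain ⟨A, hA⟩ := hD
  apply ext'
  intro x hx
  rw [hA, fderiv_cm φ hP hx, add_apply, mul_apply, mul_apply, hA, hA]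

theorem cm_symm (φ : Sm) {P : SF} (hP : Pos P) : cm φ.d2.d1 P = cm φ.d1.d2 P := by
  apply ext'
  intro x hx
  rw [cm_apply _ hP hx, cm_apply _ hP hx, φ.symm (hP x hx)]

/-! ### The Laplacian -/

theorem D_mul (D : Derivation ℝ SF SF) (F G : SF) : D (F * G) = F * D G + G * D F := by
  rw [Derivation.leibniz, smul_eq_mul, smul_eq_mul]

theorem D_pow2 (D : Derivation ℝ SF SF) (F : SF) : D (F ^ 2) = 2 * F * D F := by
  rw [pow_two, D_mul]; ring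

theorem Lap_mul (F G : SF) : Lap (F * G) = F * Lap G + G * Lap F +
    2 * ∑ c, DZ c F * DZ c G := by
  simp only [Lap_eq, D_mul, map_add, Fin.sum_univ_three]
  ring

theorem D_two (D : Derivation ℝ SF SF) : D 2 = 0 := by
  have := D.map_natCast 2
  simpa using this

theorem Lap_two : Lap 2 = 0 := by
  rw [Lap_eq]; simp [D_two]

theorem Lap_two_mul (F : SF) : Lap (2 * F) = 2 * Lap F := by
  have e : ∀ G : SF, 2 * G = (2 : ℝ) • G := fun G => by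
    apply ext'; intro x hx
    rw [smul_apply, two_mul, add_apply]; ring
  rw [e, map_smul, ← e]

/-- the Laplacian of a composition -/
theorem Lap_cm (φ : Sm) {P : SF} (hP : Pos P) :
    Lap (cm φ P) = cm φ.d1 P * Lap P + cm φ.d2 P * Lap (DX P) +
      ∑ c, (cm φ.d1.d1 P * DZ c P ^ 2 + 2 * (cm φ.d1.d2 P * (DZ c P * DZ c (DX P))) +
        cm φ.d2.d2 P * DZ c (DX P) ^ 2) := by
  have h := fun c => fld_cm (isFld_DZ c) φ hP
  have h1 := fun c => fld_cm (isFld_DZ c) φ.d1 hP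
  have h2 := fun c => fld_cm (isFld_DZ c) φ.d2 hP
  simp only [cm_symm φ hP] at h2
  simp only [Lap_eq, h, map_add, D_mul, h1, h2, Fin.sum_univ_three]
  ring

/-- the lower order part of `Δ² φ(P, X P)` -/
noncomputable def R2 (φ : Sm) (P : SF) : SF :=
  Lap (cm φ.d1 P) * Lap P + Lap (cm φ.d2 P) * Lap (DX P) +
    ∑ c, (Lap (cm φ.d1.d1 P) * DZ c P ^ 2 +
      2 * (Lap (cm φ.d1.d2 P) * (DZ c P * DZ c (DX P))) +
      Lap (cm φ.d2.d2 P) * DZ c (DX P) ^ 2 +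
      ∑ d, (4 * (DZ d (cm φ.d1.d1 P) * (DZ c P * DZ d (DZ c P)) +
        DZ d (cm φ.d1.d2 P) * (DZ c P * DZ d (DZ c (DX P)) + DZ c (DX P) * DZ d (DZ c P)) +
        DZ d (cm φ.d2.d2 P) * (DZ c (DX P) * DZ d (DZ c (DX P)))) +
        2 * (cm φ.d1.d1 P * DZ d (DZ c P) ^ 2 +
          2 * (cm φ.d1.d2 P * (DZ d (DZ c P) * DZ d (DZ c (DX P)))) +
          cm φ.d2.d2 P * DZ d (DZ c (DX P)) ^ 2)))

theorem Lap_block (hc : ∀ (c : Fin 3) (F : SF), Lap (DZ c F) = DZ c (Lap F)) (a b e P Q : SF)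
    (c : Fin 3) :
    Lap (a * DZ c P ^ 2 + 2 * (b * (DZ c P * DZ c Q)) + e * DZ c Q ^ 2) =
      2 * ((a * DZ c P + b * DZ c Q) * DZ c (Lap P)) +
        2 * ((b * DZ c P + e * DZ c Q) * DZ c (Lap Q)) +
      (Lap a * DZ c P ^ 2 + 2 * (Lap b * (DZ c P * DZ c Q)) + Lap e * DZ c Q ^ 2 +
      ∑ d, (4 * (DZ d a * (DZ c P * DZ d (DZ c P)) +
        DZ d b * (DZ c P * DZ d (DZ c Q) + DZ c Q * DZ d (DZ c P)) +
        DZ d e * (DZ c Q * DZ d (DZ c Q))) +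
        2 * (a * DZ d (DZ c P) ^ 2 +
          2 * (b * (DZ d (DZ c P) * DZ d (DZ c Q))) + e * DZ d (DZ c Q) ^ 2))) := by
  simp only [map_add, Lap_mul, D_mul, hc, pow_two, Fin.sum_univ_three, D_two, Lap_two]
  ring

/-- `Δ²` of a composition -/
theorem Lap2_cm (hc : ∀ (c : Fin 3) (F : SF), Lap (DZ c F) = DZ c (Lap F)) (φ : Sm) {P : SF}
    (hP : Pos P) :
    Lap (Lap (cm φ P)) = cm φ.d1 P * Lap (Lap P) + cm φ.d2 P * Lap (Lap (DX P)) +
      4 * ∑ c, (DZ c (cm φ.d1 P) * DZ c (Lap P) + DZ c (cm φ.d2 P) * DZ c (Lap (DX P))) +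
      R2 φ P := by
  have h1 := fun c => fld_cm (isFld_DZ c) φ.d1 hP
  have h2 := fun c => fld_cm (isFld_DZ c) φ.d2 hP
  simp only [cm_symm φ hP] at h2
  rw [Lap_cm φ hP, map_add, map_add, map_sum, Lap_mul, Lap_mul]
  simp only [Lap_block hc]
  rw [R2]
  simp only [← h1, ← h2, Finset.sum_add_distrib, ← Finset.mul_sum]
  ring

/-! ### The length integrand -/

theorem sqrt_pos_Om {z : ℝ × ℝ} (hz : z ∈ Om) : 0 < Real.sqrt (z.1 ^ 2 + z.2 ^ 2) := by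
  apply Real.sqrt_pos.2
  have : 0 < z.1 := hz
  positivity

theorem sqrt_smooth : ContDiffOn ℝ ∞ (fun z : ℝ × ℝ => Real.sqrt (z.1 ^ 2 + z.2 ^ 2)) Om := by
  apply ContDiffOn.sqrt (by fun_prop)
  intro z hz
  have : 0 < z.1 := hz
  positivity

/-- the length integrand -/
noncomputable def lam : Sm where
  f z := Real.sqrt (z.1 ^ 2 + z.2 ^ 2) / z.1 ^ 2
  sm := by
    apply sqrt_smooth.div (by fun_prop)
    intro z hz
    have : 0 < z.1 := hz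
    positivity

theorem lam_eq (a b : ℝ) : lam.f (a, b) = Lg a b := rfl

theorem hasFDerivAt_lam {z : ℝ × ℝ} (hz : z ∈ Om) :
    HasFDerivAt lam.f ((-(z.1 ^ 2 + 2 * z.2 ^ 2) / (z.1 ^ 3 * Real.sqrt (z.1 ^ 2 + z.2 ^ 2))) •
      ContinuousLinearMap.fst ℝ ℝ ℝ + (z.2 / (z.1 ^ 2 * Real.sqrt (z.1 ^ 2 + z.2 ^ 2))) •
      ContinuousLinearMap.snd ℝ ℝ ℝ) z := by
  have h0 : 0 < z.1 := hz
  have h1 := sqrt_pos_Om hz
  have h2 : HasFDerivAt (fun z : ℝ × ℝ => z.1 ^ 2 + z.2 ^ 2)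
      ((2 * z.1) • ContinuousLinearMap.fst ℝ ℝ ℝ + (2 * z.2) • ContinuousLinearMap.snd ℝ ℝ ℝ)
      z := by
    have a1 : HasFDerivAt (fun z : ℝ × ℝ => z.1) (ContinuousLinearMap.fst ℝ ℝ ℝ) z :=
      hasFDerivAt_fst
    have a2 : HasFDerivAt (fun z : ℝ × ℝ => z.2) (ContinuousLinearMap.snd ℝ ℝ ℝ) z :=
      hasFDerivAt_snd
    refine ((a1.pow 2).add (a2.pow 2)).congr_fderiv ?_
    ext <;> simp
  have h3 := h2.sqrt (by positivity)
  have h4 : HasFDerivAt (fun z : ℝ × ℝ => z.1 ^ 2)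
      ((2 * z.1) • ContinuousLinearMap.fst ℝ ℝ ℝ) z := by
    have a1 : HasFDerivAt (fun z : ℝ × ℝ => z.1) (ContinuousLinearMap.fst ℝ ℝ ℝ) z :=
      hasFDerivAt_fst
    refine (a1.pow 2).congr_fderiv ?_
    ext <;> simp
  have h5 : HasFDerivAt (fun z : ℝ × ℝ => (z.1 ^ 2)⁻¹) _ z :=
    (hasDerivAt_inv (show z.1 ^ 2 ≠ 0 by positivity)).comp_hasFDerivAt z h4
  have h6 := h3.mul h5
  have e : lam.f = fun z : ℝ × ℝ => Real.sqrt (z.1 ^ 2 + z.2 ^ 2) * (z.1 ^ 2)⁻¹ := by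
    funext z; rw [← div_eq_mul_inv]; rfl
  rw [e]
  refine h6.congr_fderiv ?_
  have hs : Real.sqrt (z.1 ^ 2 + z.2 ^ 2) ^ 2 = z.1 ^ 2 + z.2 ^ 2 := Real.sq_sqrt (by positivity)
  ext
  · simp
    field_simp
    rw [hs]
    ring
  · simp
    field_simp

theorem lam_d1 {z : ℝ × ℝ} (hz : z ∈ Om) : lam.d1.f z =
    -(z.1 ^ 2 + 2 * z.2 ^ 2) / (z.1 ^ 3 * Real.sqrt (z.1 ^ 2 + z.2 ^ 2)) := by
  have : lam.d1.f z = fderiv ℝ lam.f z (1, 0) := rfl
  rw [this, (hasFDerivAt_lam hz).fderiv]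
  simp

theorem lam_d2 {z : ℝ × ℝ} (hz : z ∈ Om) : lam.d2.f z =
    z.2 / (z.1 ^ 2 * Real.sqrt (z.1 ^ 2 + z.2 ^ 2)) := by
  have : lam.d2.f z = fderiv ℝ lam.f z (0, 1) := rfl
  rw [this, (hasFDerivAt_lam hz).fderiv]
  simp

end Pool.Agent.MP85963d.H69
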