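import Pool.Agent.Lib.MP_85963d_gt.H69.Ana

/-!
# Module ENER1
-/

set_option autoImplicit false

open MeasureTheory Set Filter Topology Quaternion
open scoped Real ContDiff

namespace Pool.Agent.MP85963d.H69

open SF

namespace Fam

variable {ι : Type} {A : Fam ι}

/-- the size of the total -/
noncomputable def Phi (A : Fam ι) (i : ι) (x : ℍ) : ℝ :=
  J 2 (A.y i) x * |(Lap (Lap (A.y i))) x| + (J 3 (A.y i) x + J 3 (A.y i) x ^ 2)

theorem DV_Lap (hCas : CasFacts) {F : SF} (h : DV F = 0) : DV (Lap F) = 0 := by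
  have := hCas.comm 1 F
  rw [Dlet_1, h, map_zero] at this
  exact this.symm

theorem abs_DZ_Lap_le (y : SF) (c : Fin 3) (x : ℍ) : |(DZ c (Lap y)) x| ≤ 3 * J 3 y x := by
  have key : ∀ a : Fin 3, |(DZ c (DZ a (DZ a y))) x| ≤ J 3 y x := by
    intro a
    have := le_J (k := 3) (l := [zl c, zl a, zl a]) (by simp) y x
    rwa [word_cons, word_cons, word_cons, word_nil, Dlet_zl, Dlet_zl] at this
  rw [Lap_eq, map_add, map_add, add_apply, add_apply]
  calc _ ≤ |(DZ c (DZ 0 (DZ 0 y))) x| + |(DZ c (DZ 1 (DZ 1 y))) x| +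
        |(DZ c (DZ 2 (DZ 2 y))) x| := abs_add_three _ _ _
    _ ≤ J 3 y x + J 3 y x + J 3 y x := add_le_add (add_le_add (key 0) (key 1)) (key 2)
    _ = _ := by ring

theorem real_bound {C1 C2 C3 C4 C5 a z0 z1 z2 r n m : ℝ} (h1 : 0 ≤ C1) (h2 : 0 ≤ C2)
    (h3 : 0 ≤ C3) (h4 : 0 ≤ C4) (h5 : 0 ≤ C5) (hn : 0 ≤ n) (hm : 0 ≤ m) (t1 : |a| ≤ C1 * n)
    (t20 : |z0| ≤ 3 * C3 * m) (t21 : |z1| ≤ 3 * C3 * m) (t22 : |z2| ≤ 3 * C3 * m)
    (t4 : |r| ≤ C4 * m) :
    |-a - 4 * (z0 + z1 + z2) + r| ≤ (C1 + C2 + 36 * C3 + C4 + C5) * (n + m) := by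
  rw [abs_le] at t1 t20 t21 t22 t4 ⊢
  have m1 := mul_nonneg h2 hn
  have m2 := mul_nonneg h3 hn
  have m3 := mul_nonneg h4 hn
  have m4 := mul_nonneg h5 hn
  have m5 := mul_nonneg h1 hm
  have m6 := mul_nonneg h2 hm
  have m7 := mul_nonneg h5 hm
  constructor
  · linarith [t1.1, t1.2, t20.1, t20.2, t21.1, t21.2, t22.1, t22.2, t4.1, t4.2]
  · linarith [t1.1, t1.2, t20.1, t20.2, t21.1, t21.2, t22.1, t22.2, t4.1, t4.2]

theorem real_prod {C3 j a b : ℝ} (hC : 0 ≤ C3) (hj : 0 ≤ j) (ha : |a| ≤ C3 * (1 + j))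
    (hb : |b| ≤ 3 * j) : |a * b| ≤ 3 * C3 * (j + j ^ 2) := by
  rw [abs_mul]
  calc |a| * |b| ≤ (C3 * (1 + j)) * (3 * j) := mul_le_mul ha hb (abs_nonneg _) (by positivity)
    _ = _ := by ring

theorem tot_bound (hCas : CasFacts) : ∃ C : ℝ, 0 ≤ C ∧ ∀ i (x : ℍ),
    |(tot A i) x| ≤ C * Phi A i x ∧ |(DV (tot A i)) x| ≤ C * Phi A i x := by
  have hc : ∀ (c : Fin 3) (F : SF), Lap (DZ c F) = DZ c (Lap F) := fun c F => by
    rw [← Dlet_zl]; exact hCas.comm _ F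
  have hX : ∀ F : SF, Lap (DX F) = DX (Lap F) := fun F => hCas.comm 0 F
  obtain ⟨⟨C1, hC1, w1⟩, ⟨C2, hC2, w2⟩⟩ := K_w (A := A)
  have hZ : ∃ C3 : ℝ, 0 ≤ C3 ∧ ∀ (c : Fin 3) i (x : ℍ),
      |(DZ c (w (A.P i))) x| ≤ C3 * (1 + J 3 (A.y i) x) ∧
      |(DV (DZ c (w (A.P i)))) x| ≤ C3 * (1 + J 3 (A.y i) x) := by
    have each : ∀ c : Fin 3, ∃ C3 : ℝ, 0 ≤ C3 ∧ ∀ i (x : ℍ),
        |(DZ c (w (A.P i))) x| ≤ C3 * (1 + J 3 (A.y i) x) ∧
        |(DV (DZ c (w (A.P i)))) x| ≤ C3 * (1 + J 3 (A.y i) x) := by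
      intro c
      obtain ⟨⟨D1, hD1, z1⟩, ⟨D2, hD2, z2⟩⟩ := K_Zw (A := A) c
      refine ⟨D1 + D2, by positivity, fun i x => ?_⟩
      obtain ⟨a1, a2⟩ := z1 i x
      obtain ⟨b1, b2⟩ := z2 i x
      rw [om1] at a2 b2
      have hJ := J_nonneg 3 (A.y i) x
      generalize J 3 (A.y i) x = j at *
      have m1 := mul_nonneg hD1 hJ
      have m2 := mul_nonneg hD2 hJ
      rw [abs_le] at a1 a2 b1 b2
      constructor
      · rw [abs_le]; constructor <;> nlinarith [a1.1, a1.2, a2.1, a2.2]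
      · rw [abs_le]; constructor <;> nlinarith [b1.1, b1.2, b2.1, b2.2]
    choose D hD h using each
    refine ⟨∑ c, D c, Finset.sum_nonneg fun c _ => hD c, fun c i x => ?_⟩
    have hle : D c ≤ ∑ c, D c :=
      Finset.single_le_sum (f := D) (fun c _ => hD c) (Finset.mem_univ c)
    have hJ := J_nonneg 3 (A.y i) x
    have hm : D c * (1 + J 3 (A.y i) x) ≤ (∑ c, D c) * (1 + J 3 (A.y i) x) :=
      mul_le_mul_of_nonneg_right hle (by linarith)
    exact ⟨(h c i x).1.trans hm, (h c i x).2.trans hm⟩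
  obtain ⟨C3, hC3, w3⟩ := hZ
  obtain ⟨⟨C4, hC4, w4⟩, ⟨C5, hC5, w5⟩⟩ := K_rest (A := A)
  refine ⟨C1 + C2 + 36 * C3 + C4 + C5, by positivity, fun i x => ?_⟩
  have hVy : DV (A.y i) = 0 := DV_of_isU (A.isUy i)
  have hVf : DV (Lap (Lap (A.y i))) = 0 := DV_Lap hCas (DV_Lap hCas hVy)
  have hVz : ∀ c, DV (DZ c (Lap (A.y i))) = 0 := fun c => by
    rw [DV_DZ, DV_Lap hCas hVy, map_zero]
  have h4 : ∀ F : SF, (4 * F) x = 4 * F x := fun F => by
    have e : 4 * F = (4 : ℝ) • F := by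
      apply ext'
      intro z hz
      have e4 : (4 : SF) = algebraMap ℝ SF 4 := by rw [map_ofNat]
      rw [SF.mul_apply, e4, SF.algebraMap_apply _ hz, SF.smul_apply]
    rw [e, SF.smul_apply]
  have hV4 : ∀ F : SF, DV (4 * F) = 4 * DV F := fun F => by
    have e := D_mul DV (2 * 2) F
    have e2 : (4 : SF) = 2 * 2 := by norm_num
    rw [e2, e, D_mul, D_two]; ring
  have f1 : |(w (A.P i)) x - (w (A.p i)) x| ≤ C1 * J 2 (A.y i) x := (w1 i x).2
  have f2 : |(DV (w (A.P i))) x - (DV (w (A.p i))) x| ≤ C2 * J 2 (A.y i) x := (w2 i x).2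
  have f4 : |(rest (A.p i) (A.P i)) x - (rest (A.p i) (A.p i)) x| ≤
      C4 * (J 3 (A.y i) x + J 3 (A.y i) x ^ 2) := (w4 i x).2
  have f5 : |(DV (rest (A.p i) (A.P i))) x - (DV (rest (A.p i) (A.p i))) x| ≤
      C5 * (J 3 (A.y i) x + J 3 (A.y i) x ^ 2) := (w5 i x).2
  have f6 := fun c => abs_DZ_Lap_le (A.y i) c x
  have hJ := J_nonneg 3 (A.y i) x
  have hJ2 := J_nonneg 2 (A.y i) x
  have t2 := fun c => real_prod hC3 hJ (w3 c i x).1 (f6 c)
  have t2' := fun c => real_prod hC3 hJ (w3 c i x).2 (f6 c)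
  have nf : 0 ≤ J 2 (A.y i) x * |(Lap (Lap (A.y i))) x| := mul_nonneg hJ2 (abs_nonneg _)
  have nj : 0 ≤ J 3 (A.y i) x + J 3 (A.y i) x ^ 2 := add_nonneg hJ (sq_nonneg _)
  have t1 : |((w (A.P i)) x - (w (A.p i)) x) * (Lap (Lap (A.y i))) x| ≤
      C1 * (J 2 (A.y i) x * |(Lap (Lap (A.y i))) x|) := by
    rw [abs_mul, ← mul_assoc]
    exact mul_le_mul_of_nonneg_right f1 (abs_nonneg _)
  have t1' : |((DV (w (A.P i))) x - (DV (w (A.p i))) x) * (Lap (Lap (A.y i))) x| ≤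
      C2 * (J 2 (A.y i) x * |(Lap (Lap (A.y i))) x|) := by
    rw [abs_mul, ← mul_assoc]
    exact mul_le_mul_of_nonneg_right f2 (abs_nonneg _)
  rw [tot_eq hc hX, Phi]
  constructor
  · simp only [SF.add_apply, SF.sub_apply, SF.neg_apply, SF.mul_apply, h4, Fin.sum_univ_three]
    exact real_bound hC1 hC2 hC3 hC4 hC5 nf nj t1 (t2 0) (t2 1) (t2 2) f4
  · have e : DV (-((w (A.P i) - w (A.p i)) * Lap (Lap (A.y i))) -
        4 * ∑ c, DZ c (w (A.P i)) * DZ c (Lap (A.y i)) +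
        (rest (A.p i) (A.P i) - rest (A.p i) (A.p i))) =
        -((DV (w (A.P i)) - DV (w (A.p i))) * Lap (Lap (A.y i))) -
        4 * ∑ c, DV (DZ c (w (A.P i))) * DZ c (Lap (A.y i)) +
        (DV (rest (A.p i) (A.P i)) - DV (rest (A.p i) (A.p i))) := by
      simp only [map_add, map_sub, map_neg, hV4, D_mul, hVf, hVz, Fin.sum_univ_three]
      ring
    rw [e]
    simp only [SF.add_apply, SF.sub_apply, SF.neg_apply, SF.mul_apply, h4, Fin.sum_univ_three]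
    refine (real_bound hC2 hC1 hC3 hC5 hC4 nf nj t1' (t2' 0) (t2' 1) (t2' 2) f5).trans_eq ?_
    ring

/-- the norm of `Phi` -/
theorem nrm_Phi (hGN : GNStatement) (hNorm : NormFacts) {S0 S M : ℝ} (i : ι)
    (hS : ∀ (l : List (Fin 6)) (x : ℍ), l.length ≤ 2 → |(word l (A.y i)) x| ≤ S) (hS0 : S ≤ S0)
    (hM : ∀ l : List (Fin 6), l.length ≤ 3 → nrm (word l (A.y i)) ≤ M) :
    nrm (Phi A i) ≤ (Wd 2).card * S * nrm (Lap (Lap (A.y i))) + ((Wd 3).card * M +
      (Wd 3).card * ((Wd 3).card * (S0 * M + 3 * S * nrm (Lap (Lap (A.y i)))))) := by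
  have hSn : 0 ≤ S := (abs_nonneg _).trans (hS [] 1 (by simp))
  have hMn : 0 ≤ M := (nrm_nonneg _).trans (hM [] (by simp))
  have c1 : ContinuousOn (fun x => J 2 (A.y i) x * |(Lap (Lap (A.y i))) x|) {0}ᶜ :=
    (continuousOn_J 2 _).mul (Lap (Lap (A.y i))).continuousOn.abs
  have c2 : ContinuousOn (fun x => J 3 (A.y i) x ^ 2) {0}ᶜ := (continuousOn_J 3 _).pow 2
  have s1 : nrm (fun x => J 2 (A.y i) x * |(Lap (Lap (A.y i))) x|) ≤
      (Wd 2).card * S * nrm (Lap (Lap (A.y i))) := by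
    rw [← nrm_abs (Lap (Lap (A.y i))), ← nrm_const_mul (mul_nonneg (Nat.cast_nonneg _) hSn)]
    refine nrm_mono c1 (continuousOn_const.mul (Lap (Lap (A.y i))).continuousOn.abs) fun x => ?_
    rw [abs_of_nonneg (mul_nonneg (J_nonneg _ _ _) (abs_nonneg _))]
    have hJ := J_le (k := 2) (y := A.y i) (x := x) (S := S) fun l hl => hS l x hl
    exact mul_le_mul_of_nonneg_right hJ (abs_nonneg _)
  have s2 := nrm_J_le hM
  have s3 : nrm (fun x => J 3 (A.y i) x ^ 2) ≤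
      (Wd 3).card * ((Wd 3).card * (S0 * M + 3 * S * nrm (Lap (Lap (A.y i))))) := by
    refine nrm_J_sq_le fun l hl => ?_
    have hf := nrm_nonneg (Lap (Lap (A.y i)))
    rcases Nat.lt_or_ge l.length 3 with h | h
    · have h2 : l.length ≤ 2 := by omega
      have : nrm (fun x => (word l (A.y i)) x ^ 2) ≤ nrm (fun x => S * |(word l (A.y i)) x|) := by
        refine nrm_mono ((word l (A.y i)).continuousOn.pow 2)
          (continuousOn_const.mul (word l (A.y i)).continuousOn.abs) fun x => ?_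
        rw [abs_of_nonneg (sq_nonneg _), ← sq_abs, pow_two]
        exact mul_le_mul_of_nonneg_right (hS l x h2) (abs_nonneg _)
      rw [nrm_const_mul hSn, nrm_abs] at this
      refine this.trans ?_
      have h3 := hM l hl
      have h4 := nrm_nonneg (word l (A.y i))
      have h5 : S * nrm (word l (A.y i)) ≤ S0 * M :=
        mul_le_mul hS0 h3 h4 (hSn.trans hS0)
      nlinarith [mul_nonneg hSn hf]
    · obtain ⟨j, l', rfl⟩ : ∃ j l', l = j :: l' := by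
        cases l with
        | nil => simp at h
        | cons j l' => exact ⟨j, l', rfl⟩
      have hl' : l'.length = 2 := by simp only [List.length_cons] at h hl; omega
      have h1 := hGN j (word l' (A.y i)) S fun x => hS l' x hl'.le
      have h2 := hNorm.four (A.y i) (j :: j :: l') (by simp [hl'])
      rw [word_cons, word_cons] at h2
      rw [word_cons]
      refine h1.trans ?_
      have h5 : 3 * S * nrm (Dlet j (Dlet j (word l' (A.y i)))) ≤
          3 * S * nrm (Lap (Lap (A.y i))) :=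
        mul_le_mul_of_nonneg_left h2 (mul_nonneg zero_le_three hSn)
      have h6 : 0 ≤ S0 * M := mul_nonneg (hSn.trans hS0) hMn
      linarith
  have a1 := nrm_add_le (continuousOn_J 3 (A.y i)) c2
  have a2 := nrm_add_le c1 ((continuousOn_J 3 (A.y i)).add c2)
  exact a2.trans (add_le_add s1 (a1.trans (add_le_add s2 s3)))

theorem D_four_mul (D : Derivation ℝ SF SF) (F : SF) : D (4 * F) = 4 * D F := by
  have e := D_mul D (2 * 2) F
  have e2 : (4 : SF) = 2 * 2 := by norm_num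
  rw [e2, e, D_mul, D_two]; ring

theorem tot_ip {ψ : SF} (hψ : DX ψ = 0) (i : ι) :
    ip (Lap (Lap (cm lam (A.P i) - cm lam (A.p i)))) ψ +
      ip (w (A.p i) * Lap (Lap (A.y i)) : SF) ψ = ip (tot A i) ψ := by
  have e : tot A i = (Lap (Lap (cm lam (A.P i) - cm lam (A.p i))) +
      w (A.p i) * Lap (Lap (A.y i))) + -(DX (cm lam.d2 (A.P i) * Lap (Lap (A.y i)) +
        4 * ∑ c, DZ c (cm lam.d2 (A.P i)) * DZ c (Lap (A.y i)))) := by
    rw [tot, map_add, D_four_mul, map_sum]; ring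
  rw [e, ip_add_left, ip_add_left, ip_neg_left, ip_DX, hψ]
  simp [ip]

theorem tot_klein (hWS : WSFacts) (i : ι) (h1 : Adm (A.P i)) (h2 : Adm (A.p i))
    (hw : w (A.p i) = wS (A.p i)) : IsKlein (tot A i) := by
  apply isKlein_of_par
  have p1 : Par 1 (cm lam (A.P i)) := by
    rw [← LgS_eq hWS h1]; exact par_of_isKlein (hWS.LgS_klein _ h1)
  have p2 : Par 1 (cm lam (A.p i)) := by
    rw [← LgS_eq hWS h2]; exact par_of_isKlein (hWS.LgS_klein _ h2)
  have p3 : Par 1 (w (A.p i)) := by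
    rw [hw]; exact par_of_isKlein (hWS.wS_klein _ h2)
  have p4 : Par 1 (A.y i) := par_of_isKlein (isKlein_of_isU (A.isUy i))
  have p5 : Par (-1) (cm lam.d2 (A.P i)) := par_lam2 h1
  have cast : ∀ {σ τ : ℝ} {F : SF}, Par σ F → σ = τ → Par τ F := fun h e => e ▸ h
  have p6 : Par 1 (w (A.p i) * Lap (Lap (A.y i))) := cast (p3.mul p4.Lap.Lap) (by norm_num)
  have p7 : Par 1 (DX (cm lam.d2 (A.P i) * Lap (Lap (A.y i)))) :=
    cast (p5.mul p4.Lap.Lap).DX (by norm_num)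
  have p8 : ∀ c, Par 1 (DX (DZ c (cm lam.d2 (A.P i)) * DZ c (Lap (A.y i)))) := fun c =>
    cast ((p5.DZ c).mul (p4.Lap.DZ c)).DX (by norm_num)
  have p9 : Par 1 (∑ c, DX (DZ c (cm lam.d2 (A.P i)) * DZ c (Lap (A.y i)))) := by
    rw [Fin.sum_univ_three]
    exact ((p8 0).add (p8 1)).add (p8 2)
  have p10 : Par 1 (4 * ∑ c, DX (DZ c (cm lam.d2 (A.P i)) * DZ c (Lap (A.y i)))) := by
    have e : ∀ F : SF, 4 * F = F + F + F + F := fun F => by ring
    rw [e]
    exact ((p9.add p9).add p9).add p9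
  exact (((p1.sub p2).Lap.Lap.add p6).sub p7).sub p10

end Fam

theorem real_fin {n2 n3 K e f M : ℝ} (h2 : 0 ≤ n2) (h3 : 0 ≤ n3) (hK : 0 ≤ K) (he : 0 ≤ e)
    (hf : 0 ≤ f) (hM : 0 ≤ M) :
    n2 * (K * e) * f + (n3 * M + n3 * (n3 * (K * M + 3 * (K * e) * f))) ≤
      (n2 * K + n3 + n3 * (n3 * (K + 3 * K))) * (e * f + M) := by
  have r1 : 0 ≤ n2 * K * M := by positivity
  have r2 : 0 ≤ n3 * (e * f) := by positivity
  have r3 : 0 ≤ n3 * (n3 * (K * (e * f))) := by positivity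
  have r4 : 0 ≤ n3 * (n3 * (3 * K * M)) := by positivity
  nlinarith

theorem cts_SF (F : SF) : Cts F := ⟨F.continuousOn, fun _ x hr _ => F.hom hr x⟩

/-- sup bounds from the energy -/
theorem sup_bound (hCas : CasFacts) (hNorm : NormFacts) (hPsi : PsiFacts) (hSob : SobStatement) :
    ∃ K : ℝ, 0 ≤ K ∧ ∀ (n : ℕ) (y : SF), y ∈ UN n → ∀ (l : List (Fin 6)) (x : ℍ),
      l.length ≤ 2 → |(word l y) x| ≤ K * ener y := by
  obtain ⟨C, hC⟩ := hSob
  obtain ⟨I, hI⟩ := hNorm.interp 1 one_pos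
  refine ⟨9 * (|C| * (4 * (1 + |I|) + 3)), by positivity, fun n y hy l x hl => ?_⟩
  have hE : 0 ≤ ener y := add_nonneg (nrm_nonneg _) (nrm_nonneg _)
  have n1 := nrm_nonneg (Lap (Lap y))
  have n2 := nrm_nonneg y
  have b3 : ∀ l : List (Fin 6), l.length ≤ 3 → nrm (word l y) ≤ (1 + |I|) * ener y := by
    intro l hl
    refine (hI y l hl).trans ?_
    rw [ener]
    nlinarith [le_abs_self I, abs_nonneg I, mul_nonneg (abs_nonneg I) n1,
      mul_le_mul_of_nonneg_right (le_abs_self I) n2]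
  have b4 : ∀ l : List (Fin 6), l.length = 4 → nrm (word l y) ≤ ener y := by
    intro l hl
    refine (hNorm.four y l hl).trans ?_
    rw [ener]; linarith
  have key : ∀ (η : SF) (a b : ℝ), (∃ n, η ∈ UN n) → nrm η ≤ a → nrm (Lap η) ≤ b →
      a + b ≤ (4 * (1 + |I|) + 3) * ener y →
      |η x| ≤ |C| * (4 * (1 + |I|) + 3) * ener y := by
    rintro η a b ⟨m, hη⟩ ha hb hab
    refine (hC η hη.2 x).trans ?_
    have h0 : 0 ≤ nrm η + nrm (Lap η) := add_nonneg (nrm_nonneg _) (nrm_nonneg _)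
    calc C * (nrm η + nrm (Lap η)) ≤ |C| * (nrm η + nrm (Lap η)) :=
          mul_le_mul_of_nonneg_right (le_abs_self _) h0
      _ ≤ |C| * ((4 * (1 + |I|) + 3) * ener y) :=
          mul_le_mul_of_nonneg_left (by linarith) (abs_nonneg _)
      _ = _ := by ring
  have hz : ∀ c : Fin 3, Dlet (zl c) = DZ c := Dlet_zl
  have I0 := abs_nonneg I
  have m0 := mul_nonneg I0 hE
  have e0 : |y x| ≤ |C| * (4 * (1 + |I|) + 3) * ener y := by
    refine key y ((1 + |I|) * ener y) (3 * ((1 + |I|) * ener y)) ⟨n, hy⟩ (b3 [] (by simp))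
      ((nrm_Lap_le y).trans ?_) (by nlinarith)
    rw [Fin.sum_univ_three]
    have : ∀ c : Fin 3, nrm (DZ c (DZ c y)) ≤ (1 + |I|) * ener y := fun c => by
      have := b3 [zl c, zl c] (by simp)
      rwa [word_cons, word_cons, word_nil, hz] at this
    linarith [this 0, this 1, this 2]
  have e1 : ∀ a, |(DZ a y) x| ≤ |C| * (4 * (1 + |I|) + 3) * ener y := by
    intro a
    refine key (DZ a y) ((1 + |I|) * ener y) (3 * ((1 + |I|) * ener y))
      ⟨n, hPsi.dz_mem n a y hy⟩ ?_ ((nrm_Lap_le _).trans ?_) (by nlinarith)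
    · have := b3 [zl a] (by simp)
      rwa [word_cons, word_nil, hz] at this
    · rw [Fin.sum_univ_three]
      have : ∀ c : Fin 3, nrm (DZ c (DZ c (DZ a y))) ≤ (1 + |I|) * ener y := fun c => by
        have := b3 [zl c, zl c, zl a] (by simp)
        rwa [word_cons, word_cons, word_cons, word_nil, hz, hz] at this
      linarith [this 0, this 1, this 2]
  have e2 : ∀ a b, |(DZ a (DZ b y)) x| ≤ |C| * (4 * (1 + |I|) + 3) * ener y := by
    intro a b
    refine key (DZ a (DZ b y)) ((1 + |I|) * ener y) (3 * ener y)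
      ⟨n, hPsi.dz_mem n a _ (hPsi.dz_mem n b y hy)⟩ ?_ ((nrm_Lap_le _).trans ?_) (by nlinarith)
    · have := b3 [zl a, zl b] (by simp)
      rwa [word_cons, word_cons, word_nil, hz, hz] at this
    · rw [Fin.sum_univ_three]
      have : ∀ c : Fin 3, nrm (DZ c (DZ c (DZ a (DZ b y)))) ≤ ener y := fun c => by
        have := b4 [zl c, zl c, zl a, zl b] (by simp)
        rwa [word_cons, word_cons, word_cons, word_cons, word_nil, hz, hz, hz] at this
      linarith [this 0, this 1, this 2]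
  have := sup_word hCas e0 e1 e2 l hl
  rwa [← mul_assoc] at this

theorem ener1_of (hCas : CasFacts) (hNorm : NormFacts) (hPsi : PsiFacts) (hPest : PestStatement)
    (hSob : SobStatement) (hGN : GNStatement) (hWS : WSFacts) (hFam : FamFacts)
    (hSmall : SmallStatement) : Ener1Statement := by
  intro p₀ p₁ hp₀ hp₁
  obtain ⟨ε₀, hε₀, c₁, hc₁, hsm⟩ := hSmall p₀ p₁ hp₀ hp₁
  obtain ⟨c₀, hc₀, hlow⟩ := hFam.low p₀ p₁ hp₀ hp₁
  obtain ⟨B₁, hB₁⟩ := hFam.bd p₀ p₁ hp₀ hp₁ 8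
  obtain ⟨K, hK, hsup⟩ := sup_bound hCas hNorm hPsi hSob
  let ι : Type := {t : ℝ × SF // t.1 ∈ Icc (0:ℝ) 1 ∧ (∃ n, t.2 ∈ UN n) ∧
    ener t.2 ≤ min ε₀ 1}
  have hone : ∀ i : ι, ener i.1.2 ≤ 1 := fun i => i.2.2.2.trans (min_le_right _ _)
  have heps : ∀ i : ι, ener i.1.2 ≤ ε₀ := fun i => i.2.2.2.trans (min_le_left _ _)
  have hsup' : ∀ (i : ι) (l : List (Fin 6)) (x : ℍ), l.length ≤ 2 →
      |(word l i.1.2) x| ≤ K * ener i.1.2 := fun i l x hl => by
    obtain ⟨n, hn⟩ := i.2.2.1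
    exact hsup n _ hn l x hl
  have hKe : ∀ i : ι, K * ener i.1.2 ≤ K := fun i => by nlinarith [hone i]
  let A : Fam ι :=
    { p := fun i => seg p₀ p₁ i.1.1
      y := fun i => i.1.2
      B := 1 + |B₁| + (Wd 2).card * K
      c := min c₀ c₁
      hB := by
        have h1 := abs_nonneg B₁
        have h2 : (0:ℝ) ≤ (Wd 2).card * K := mul_nonneg (Nat.cast_nonneg _) hK
        linarith
      hc := lt_min hc₀ hc₁
      bd := fun i l hl x => by
        have h1 := (hB₁ i.1.1 i.2.1).1 l hl x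
        have h2 : (0:ℝ) ≤ (Wd 2).card * K := mul_nonneg (Nat.cast_nonneg _) hK
        have h3 := le_abs_self B₁
        linarith
      low := fun i x hx => (min_le_left _ _).trans (hlow _ i.2.1 x hx).1
      lowP := fun i x hx => by
        obtain ⟨n, hn⟩ := i.2.2.1
        exact (min_le_right _ _).trans (hsm _ i.2.1 _ hn.2 (heps i) x hx).2.1
      isUp := fun i => (hWS.seg_adm p₀ p₁ hp₀ hp₁ _ i.2.1).isU
      isUy := fun i => by obtain ⟨n, hn⟩ := i.2.2.1; exact hn.2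
      j2 := fun i x => by
        have h1 := J_le (k := 2) (x := x) fun l hl => (hsup' i l x hl).trans (hKe i)
        have h3 := abs_nonneg B₁
        linarith }
  obtain ⟨C, hC, hbound⟩ := Fam.tot_bound (A := A) hCas
  set n2 : ℝ := ((Wd 2).card : ℝ) with hn2
  set n3 : ℝ := ((Wd 3).card : ℝ) with hn3
  have hn2' : 0 ≤ n2 := Nat.cast_nonneg _
  have hn3' : 0 ≤ n3 := Nat.cast_nonneg _
  refine ⟨min ε₀ 1, lt_min hε₀ one_pos, 2 * C * (n2 * K + n3 + n3 * (n3 * (K + 3 * K))),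
    fun s hs n y hy hye M hM η hη => ?_⟩
  let i : ι := ⟨(s, y), hs, ⟨n, hy⟩, hye⟩
  have hx1 : (1 : ℍ) ≠ 0 := one_ne_zero
  have hP : Adm (seg p₀ p₁ s + y) := (hsm s hs y hy.2 (heps i) 1 hx1).1
  have hp : Adm (seg p₀ p₁ s) := hWS.seg_adm p₀ p₁ hp₀ hp₁ s hs
  have hw : Fam.w (seg p₀ p₁ s) = wS (seg p₀ p₁ s) := by
    rw [wS_eq hWS hp, Fam.w]; ring
  have hψ : DX (psi η) = 0 := DX_of_isE (hPsi.mem n η hη).2
  have e1 := Fam.tot_ip (A := A) hψ i
  have e2 : Bil (wS (seg p₀ p₁ s)) (Lap (Lap y)) η =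
      ip (Fam.w (A.p i) * Lap (Lap (A.y i)) : SF) (psi η) := by
    rw [Bil, ip]
    congr 1
    funext x
    rw [SF.mul_apply]
    change _ = (Fam.w (seg p₀ p₁ s)) x * (Lap (Lap y)) x * (psi η) x
    rw [hw]
  have e3 : ip (Lap (Lap (LgS (seg p₀ p₁ s + y) - LgS (seg p₀ p₁ s)))) (psi η) =
      ip (Lap (Lap (cm lam (A.P i) - cm lam (A.p i)))) (psi η) := by
    rw [LgS_eq hWS hP, LgS_eq hWS hp]
    rfl
  rw [e3, e2, e1]
  have hkl := Fam.tot_klein (A := A) hWS i hP hp hw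
  have h1 := hPest n η hη (Fam.tot A i) (DV (Fam.tot A i)) (cts_SF _) (cts_SF _) hkl
    (fun x hx t => hasDerivAt_DV _ hx t)
  refine h1.trans ?_
  have hM' : 0 ≤ M := (nrm_nonneg _).trans (hM [] (by simp))
  have hPhi := Fam.nrm_Phi (A := A) hGN hNorm (S0 := K) (S := K * ener y) i
    (fun l x hl => hsup' i l x hl) (hKe i) hM
  have cPhi : ContinuousOn (Fam.Phi A i) {0}ᶜ :=
    ((continuousOn_J 2 _).mul (Lap (Lap (A.y i))).continuousOn.abs).add
      ((continuousOn_J 3 _).add ((continuousOn_J 3 _).pow 2))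
  have g1 : nrm (Fam.tot A i) ≤ C * nrm (Fam.Phi A i) := by
    rw [← nrm_const_mul hC]
    exact nrm_mono (Fam.tot A i).continuousOn (continuousOn_const.mul cPhi)
      fun x => (hbound i x).1
  have g2 : nrm (DV (Fam.tot A i)) ≤ C * nrm (Fam.Phi A i) := by
    rw [← nrm_const_mul hC]
    exact nrm_mono (DV (Fam.tot A i)).continuousOn (continuousOn_const.mul cPhi)
      fun x => (hbound i x).2
  have hE : 0 ≤ ener y := add_nonneg (nrm_nonneg _) (nrm_nonneg _)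
  have hf := nrm_nonneg (Lap (Lap y))
  have hη0 := nrm_nonneg (η : ℍ → ℝ)
  refine mul_le_mul_of_nonneg_right ?_ hη0
  have hPhi' : nrm (Fam.Phi A i) ≤ (n2 * K + n3 + n3 * (n3 * (K + 3 * K))) *
      (ener y * nrm (Lap (Lap y)) + M) := by
    refine hPhi.trans ?_
    change n2 * (K * ener y) * nrm (Lap (Lap y)) + (n3 * M + n3 * (n3 * (K * M +
      3 * (K * ener y) * nrm (Lap (Lap y))))) ≤ _
    exact real_fin hn2' hn3' hK hE hf hM'
  calc _ ≤ C * nrm (Fam.Phi A i) + C * nrm (Fam.Phi A i) := add_le_add g1 g2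
    _ = 2 * C * nrm (Fam.Phi A i) := by ring
    _ ≤ 2 * C * ((n2 * K + n3 + n3 * (n3 * (K + 3 * K))) *
      (ener y * nrm (Lap (Lap y)) + M)) :=
        mul_le_mul_of_nonneg_left hPhi' (mul_nonneg zero_le_two hC)
    _ = _ := by ring

end Pool.Agent.MP85963d.H69
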