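import Pool.Agent.Lib.MP_85963d_gt.H69.Base

/-!
# The remainder (module ENER1, fifth part)
-/

set_option autoImplicit false

open MeasureTheory Set Filter Topology Quaternion
open scoped Real ContDiff

namespace Pool.Agent.MP85963d.H69

open SF

theorem word_append (l l' : List (Fin 6)) (F : SF) : word (l ++ l') F = word l (word l' F) := by
  simp [word, List.foldr_append]

theorem word_add (l : List (Fin 6)) (F G : SF) : word l (F + G) = word l F + word l G := by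
  induction l with
  | nil => rfl
  | cons i l ih => rw [word_cons, word_cons, word_cons, ih, map_add]

theorem word_D (l : List (Fin 6)) (i : Fin 6) (F : SF) :
    word l (Dlet i F) = word (l ++ [i]) F := by
  rw [word_append]; rfl

theorem Bd_Lap {N : ℕ} {C : ℝ} {F : SF} (h : Bd (N + 2) C F) : Bd N (3 * C) (Lap F) := by
  intro l hl x
  have key : ∀ c : Fin 3, |(word l (DZ c (DZ c F))) x| ≤ C := by
    intro c
    have := h (l ++ [zl c, zl c]) (by simp; omega) x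
    rw [word_append] at this
    have e : word [zl c, zl c] F = DZ c (DZ c F) := by
      rw [word_cons, word_cons, word_nil, Dlet_zl]
    rwa [e] at this
  rw [Lap_eq, word_add, word_add, add_apply, add_apply]
  calc _ ≤ |(word l (DZ 0 (DZ 0 F))) x| + |(word l (DZ 1 (DZ 1 F))) x| +
        |(word l (DZ 2 (DZ 2 F))) x| := abs_add_three _ _ _
    _ ≤ C + C + C := add_le_add (add_le_add (key 0) (key 1)) (key 2)
    _ = _ := by ring

theorem Bd_D {N : ℕ} {C : ℝ} {F : SF} (h : Bd (N + 1) C F) (i : Fin 6) :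
    Bd N C (Dlet i F) := by
  intro l hl x
  rw [word_D]
  exact h _ (by simp; omega) x

namespace Fam

variable {ι : Type} {A : Fam ι}

theorem K_bd {C : ℝ} (hC : 0 ≤ C) {F : ι → SF} (h : ∀ i, Bd 1 C (F i)) : A.K 0 F F :=
  K_const F C hC (fun i x => h i [] (by simp) x) (fun i x => h i [1] (by simp) x)

theorem K.m0 {F F0 G G0 : ι → SF} (h : A.K 0 F F0) (h' : A.K 0 G G0) :
    A.K 0 (fun i => F i * G i) (fun i => F0 i * G0 i) := h.mul 0 h' (by norm_num) (by norm_num)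

theorem K.m1 {d e : ℕ} {F F0 G G0 : ι → SF} (h : A.K d F F0) (h' : A.K e G G0)
    (hf : d + e ≤ 1) :
    A.K 1 (fun i => F i * G i) (fun i => F0 i * G0 i) := h.mul 1 h' hf (by norm_num)

theorem K.m2 {d e : ℕ} {F F0 G G0 : ι → SF} (h : A.K d F F0) (h' : A.K e G G0)
    (hf : d + e ≤ 2) :
    A.K 2 (fun i => F i * G i) (fun i => F0 i * G0 i) := h.mul 2 h' hf (by norm_num)

theorem K_R2 (φ : Sm) : A.K 2 (fun i => R2 φ (A.P i)) (fun i => R2 φ (A.p i)) := by
  simp only [R2, pow_two]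
  refine (((K_Lapcm _).m2 K_LapP (by norm_num)).add ((K_Lapcm _).m2 K_LapQ (by norm_num))).add (K.sum3 fun c => ?_)
  refine ((((K_Lapcm _).m2 ((K_ZP c).m0 (K_ZP c)) (by norm_num)).add
    (K_two.m2 ((K_Lapcm _).m1 ((K_ZP c).m0 (K_ZQ c)) (by norm_num)) (by norm_num))).add
      ((K_Lapcm _).m2 ((K_ZQ c).m0 (K_ZQ c)) (by norm_num))).add (K.sum3 fun d => ?_)
  refine (K_four.m2 ((((K_Zcm _ d).m2 ((K_ZP c).m0 (K_ZZP d c)) (by norm_num)).add
    ((K_Zcm _ d).m2 (((K_ZP c).m1 (K_ZZQ d c) (by norm_num)).add ((K_ZQ c).m1 (K_ZZP d c) (by norm_num))) (by norm_num))).add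
      ((K_Zcm _ d).m2 ((K_ZQ c).m1 (K_ZZQ d c) (by norm_num)) (by norm_num))) (by norm_num)).add
    (K_two.m2 ((((K_cm _).m2 ((K_ZZP d c).m0 (K_ZZP d c)) (by norm_num)).add
      (K_two.m2 ((K_cm _).m1 ((K_ZZP d c).m1 (K_ZZQ d c) (by norm_num)) (by norm_num)) (by norm_num))).add
        ((K_cm _).m2 ((K_ZZQ d c).m2 (K_ZZQ d c) (by norm_num)) (by norm_num))) (by norm_num))

/-- the weight -/
noncomputable def w (P : SF) : SF := DX (cm lam.d2 P) + (-1) * cm lam.d1 P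

theorem K_neg_one : A.K 0 (fun _ : ι => (-1 : SF)) (fun _ => -1) := by
  refine K_const _ 1 zero_le_one (fun i x => ?_) (fun i x => ?_)
  · by_cases hx : x = 0
    · subst hx; simp [map_zero']
    · rw [neg_apply, one_apply hx]; simp
  · rw [map_neg, Derivation.map_one_eq_zero, neg_zero, zero_apply]; simp

theorem K_Xcm (φ : Sm) :
    A.K 0 (fun i => DX (cm φ (A.P i))) (fun i => DX (cm φ (A.p i))) := by
  have e1 := fun i => fld_cm isFld_DX φ (A.pos_P i)
  have e2 := fun i => fld_cm isFld_DX φ (A.pos_p i)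
  simp only [e1, e2]
  exact ((K_cm _).m0 K_Q).add ((K_cm _).m0 K_XXP)

theorem K_w : A.K 0 (fun i => w (A.P i)) (fun i => w (A.p i)) := by
  simp only [w]
  exact (K_Xcm _).add (K_neg_one.m0 (K_cm _))

theorem K_Zw (c : Fin 3) :
    A.K 1 (fun i => DZ c (w (A.P i))) (fun i => DZ c (w (A.p i))) := by
  have e1 := fun (φ : Sm) i => fld_cm isFld_DX φ (A.pos_P i)
  have e2 := fun (φ : Sm) i => fld_cm isFld_DX φ (A.pos_p i)
  have e3 : ∀ F : SF, DZ c ((-1) * F) = (-1) * DZ c F := fun F => by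
    rw [D_mul, map_neg, Derivation.map_one_eq_zero]; ring
  simp only [w, map_add, e1, e2, e3, D_mul]
  refine ((((K_cm _).m1 (K_ZQ c) (by norm_num)).add (K_Q.m1 (K_Zcm _ c) (by norm_num))).add
    (((K_cm _).m1 (K_ZXXP c) (by norm_num)).add (K_XXP.m1 (K_Zcm _ c) (by norm_num)))).add (K_neg_one.m1 (K_Zcm _ c) (by norm_num))

/-- the terms where only the coefficients depend on `P` -/
noncomputable def rest (p P : SF) : SF :=
  cm lam.d1 P * Lap (Lap p) + cm lam.d2 P * Lap (Lap (DX p)) +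
    4 * ∑ c, (DZ c (cm lam.d1 P) * DZ c (Lap p) + DZ c (cm lam.d2 P) * DZ c (Lap (DX p))) +
    R2 lam P

theorem K_rest : A.K 2 (fun i => rest (A.p i) (A.P i)) (fun i => rest (A.p i) (A.p i)) := by
  have hB := A.B0
  have b1 : ∀ i, Bd 4 (3 * (3 * A.B)) (Lap (Lap (A.p i))) := fun i => Bd_Lap (Bd_Lap (A.bd i))
  have b2 : ∀ i, Bd 3 (3 * (3 * A.B)) (Lap (Lap (DX (A.p i)))) := fun i =>
    Bd_Lap (Bd_Lap (Bd_D (A.bd i) 0))
  have b3 : ∀ (c : Fin 3) i, Bd 5 (3 * A.B) (DZ c (Lap (A.p i))) := fun c i => by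
    rw [← Dlet_zl]; exact Bd_D (Bd_Lap (A.bd i)) _
  have b4 : ∀ (c : Fin 3) i, Bd 4 (3 * A.B) (DZ c (Lap (DX (A.p i)))) := fun c i => by
    rw [← Dlet_zl]; exact Bd_D (Bd_Lap (Bd_D (A.bd i) 0)) _
  have mono : ∀ {N : ℕ} {C : ℝ} {F : SF}, 1 ≤ N → Bd N C F → Bd 1 C F :=
    fun hN h l hl x => h l (hl.trans hN) x
  have k1 := K_bd (A := A) (by positivity) fun i => mono (by norm_num) (b1 i)
  have k2 := K_bd (A := A) (by positivity) fun i => mono (by norm_num) (b2 i)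
  have k3 := fun c => K_bd (A := A) (by positivity) fun i => mono (by norm_num) (b3 c i)
  have k4 := fun c => K_bd (A := A) (by positivity) fun i => mono (by norm_num) (b4 c i)
  simp only [rest]
  exact ((((K_cm _).m2 k1 (by norm_num)).add ((K_cm _).m2 k2 (by norm_num))).add
    (K_four.m2 (K.sum3 fun c => ((K_Zcm _ c).m2 (k3 c) (by norm_num)).add ((K_Zcm _ c).m2 (k4 c) (by norm_num))) (by norm_num))).add
      (K_R2 _)

/-- the total -/
noncomputable def tot (A : Fam ι) (i : ι) : SF :=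
  Lap (Lap (cm lam (A.P i) - cm lam (A.p i))) + w (A.p i) * Lap (Lap (A.y i)) -
    DX (cm lam.d2 (A.P i) * Lap (Lap (A.y i))) -
    4 * ∑ c, DX (DZ c (cm lam.d2 (A.P i)) * DZ c (Lap (A.y i)))

theorem tot_eq (hc : ∀ (c : Fin 3) (F : SF), Lap (DZ c F) = DZ c (Lap F))
    (hX : ∀ F : SF, Lap (DX F) = DX (Lap F)) (i : ι) :
    tot A i = -((w (A.P i) - w (A.p i)) * Lap (Lap (A.y i))) -
      4 * ∑ c, DZ c (w (A.P i)) * DZ c (Lap (A.y i)) +
      (rest (A.p i) (A.P i) - rest (A.p i) (A.p i)) := by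
  have e1 := Lap2_cm hc lam (A.pos_P i)
  have e2 := Lap2_cm hc lam (A.pos_p i)
  have e3 : ∀ F : SF, ∀ c, DZ c ((-1) * F) = (-1) * DZ c F := fun F c => by
    rw [D_mul, map_neg, Derivation.map_one_eq_zero]; ring
  have e4 : Lap (Lap (A.P i)) = Lap (Lap (A.p i)) + Lap (Lap (A.y i)) := by
    rw [P, map_add, map_add]
  have e5 : Lap (Lap (DX (A.P i))) = Lap (Lap (DX (A.p i))) + DX (Lap (Lap (A.y i))) := by
    rw [P, map_add, map_add, map_add, hX (A.y i), hX (Lap (A.y i))]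
  have e6 : ∀ c, DZ c (Lap (A.P i)) = DZ c (Lap (A.p i)) + DZ c (Lap (A.y i)) := fun c => by
    rw [P, map_add, map_add]
  have e7 : ∀ c, DZ c (Lap (DX (A.P i))) = DZ c (Lap (DX (A.p i))) +
      DX (DZ c (Lap (A.y i))) := fun c => by
    rw [P, map_add, map_add, map_add, hX (A.y i), DX_DZ]
  rw [tot, map_sub, map_sub, e1, e2, e4, e5]
  simp only [e6, e7, w, rest, map_add, e3, D_mul, DX_DZ, Fin.sum_univ_three]
  ring

end Fam

end Pool.Agent.MP85963d.H69
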