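import Pool.Agent.Lib.MP_85963d_gt.H69.Comp

/-!
# The weight, parity (module ENER1, second part)
-/

set_option autoImplicit false

open MeasureTheory Set Filter Topology Quaternion
open scoped Real ContDiff

namespace Pool.Agent.MP85963d.H69

open SF

/-! ### The weight -/

theorem hasDerivAt_lam2 {P Q : ℝ → ℝ} {q' t : ℝ} (hP : 0 < P t) (h1 : HasDerivAt P (Q t) t)
    (h2 : HasDerivAt Q q' t) :
    HasDerivAt (fun t => Q t / (P t ^ 2 * Real.sqrt (P t ^ 2 + Q t ^ 2)))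
      ((P t + q') / Real.sqrt (P t ^ 2 + Q t ^ 2) ^ 3 +
        -(P t ^ 2 + 2 * Q t ^ 2) / (P t ^ 3 * Real.sqrt (P t ^ 2 + Q t ^ 2))) t := by
  have hN : 0 < P t ^ 2 + Q t ^ 2 := by positivity
  have hS : 0 < Real.sqrt (P t ^ 2 + Q t ^ 2) := Real.sqrt_pos.2 hN
  have hs : Real.sqrt (P t ^ 2 + Q t ^ 2) ^ 2 = P t ^ 2 + Q t ^ 2 := Real.sq_sqrt hN.le
  have h3 : HasDerivAt (fun t => P t ^ 2 + Q t ^ 2) (2 * P t * Q t + 2 * Q t * q') t := by
    refine ((h1.pow 2).add (h2.pow 2)).congr_deriv ?_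
    simp
  have h3' : HasDerivAt (fun t => Real.sqrt (P t ^ 2 + Q t ^ 2))
      ((2 * P t * Q t + 2 * Q t * q') / (2 * Real.sqrt (P t ^ 2 + Q t ^ 2))) t := h3.sqrt hN.ne'
  have h4 : HasDerivAt (fun t => P t ^ 2 * Real.sqrt (P t ^ 2 + Q t ^ 2))
      (2 * P t * Q t * Real.sqrt (P t ^ 2 + Q t ^ 2) + P t ^ 2 *
        ((2 * P t * Q t + 2 * Q t * q') / (2 * Real.sqrt (P t ^ 2 + Q t ^ 2)))) t := by
    refine ((h1.pow 2).mul h3').congr_deriv ?_
    simp
  have h5 := h2.div h4 (by positivity)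
  refine (h5.congr_deriv ?_)
  generalize hg : Real.sqrt (P t ^ 2 + Q t ^ 2) = S at *
  field_simp
  linear_combination (q' * P t + P t ^ 2) * hs

theorem DX_lam2 {P : SF} (hP : Pos P) {x : ℍ} (hx : x ≠ 0) :
    (DX (cm lam.d2 P)) x = wf P x + (cm lam.d1 P) x := by
  have h1 := hasDerivAt_DX P hx 0
  have h2 := hasDerivAt_DX (DX P) hx 0
  have hp : ∀ t, x * rot qK t ≠ 0 := fun t => rrot_ne_zero isImUnit_K hx t
  have h3 := hasDerivAt_lam2 (P := fun t => P (x * rot qK t))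
    (Q := fun t => (DX P) (x * rot qK t)) (hP _ (hp 0)) h1 h2
  have h4 := hasDerivAt_DX (cm lam.d2 P) hx 0
  have e : (fun t => (cm lam.d2 P) (x * rot qK t)) = fun t => (DX P) (x * rot qK t) /
      (P (x * rot qK t) ^ 2 * Real.sqrt (P (x * rot qK t) ^ 2 + (DX P) (x * rot qK t) ^ 2)) := by
    funext t
    rw [cm_apply _ hP (hp t), lam_d2 (hP _ (hp t))]
  rw [e] at h4
  have h5 := h4.unique h3
  simp only [rot_zero, mul_one] at h5
  rw [h5, cm_apply _ hP hx, lam_d1 (hP x hx), wf]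

theorem LgS_eq (hWS : WSFacts) {P : SF} (hP : Adm P) : LgS P = cm lam P := by
  apply ext'
  intro x hx
  rw [hWS.LgS_apply P hP x hx, cm_apply _ hP.pos hx, lam_eq]

theorem wS_eq (hWS : WSFacts) {P : SF} (hP : Adm P) :
    wS P = DX (cm lam.d2 P) - cm lam.d1 P := by
  apply ext'
  intro x hx
  rw [hWS.wS_apply P hP x hx, sub_apply, DX_lam2 hP.pos hx]
  ring

/-! ### Parity -/

/-- `F(x i) = σ F(x)`, `F(x k) = F(x)` -/
structure Par (σ : ℝ) (F : SF) : Prop where
  mulI : ∀ x : ℍ, F (x * qI) = σ * F x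
  mulK : ∀ x : ℍ, F (x * qK) = F x

theorem isKlein_of_par {F : SF} (h : Par 1 F) : IsKlein F :=
  ⟨fun x => by rw [h.mulI, one_mul], h.mulK⟩

theorem par_of_isKlein {F : SF} (h : IsKlein F) : Par 1 F :=
  ⟨fun x => by rw [h.mulI, one_mul], h.mulK⟩

theorem isKlein_of_isU {F : SF} (h : IsU F) : IsKlein F := by
  refine ⟨fun x => ?_, h.mulK⟩
  have := h.rotI x π
  rwa [rot_pi] at this

theorem qI_ne : qI ≠ 0 := by
  intro h; have := isImUnit_I.norm_eq; simp [h] at this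

theorem qK_ne : qK ≠ 0 := by
  intro h; have := isImUnit_K.norm_eq; simp [h] at this

theorem Par.add {σ : ℝ} {F G : SF} (hF : Par σ F) (hG : Par σ G) : Par σ (F + G) :=
  ⟨fun x => by rw [add_apply, add_apply, hF.mulI, hG.mulI]; ring,
    fun x => by rw [add_apply, add_apply, hF.mulK, hG.mulK]⟩

theorem Par.sub {σ : ℝ} {F G : SF} (hF : Par σ F) (hG : Par σ G) : Par σ (F - G) :=
  ⟨fun x => by rw [sub_apply, sub_apply, hF.mulI, hG.mulI]; ring,
    fun x => by rw [sub_apply, sub_apply, hF.mulK, hG.mulK]⟩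

theorem Par.mul {σ τ : ℝ} {F G : SF} (hF : Par σ F) (hG : Par τ G) : Par (σ * τ) (F * G) :=
  ⟨fun x => by rw [mul_apply, mul_apply, hF.mulI, hG.mulI]; ring,
    fun x => by rw [mul_apply, mul_apply, hF.mulK, hG.mulK]⟩

theorem fderiv_rmul (F : SF) {g : ℍ} (hg : g ≠ 0) {x : ℍ} (hx : x ≠ 0) (v : ℍ) {c : ℝ}
    (hF : ∀ x : ℍ, F (x * g) = c * F x) :
    fderiv ℝ F (x * g) (v * g) = c * fderiv ℝ F x v := by
  have h1 : HasFDerivAt F (fderiv ℝ F (x * g)) (x * g) := F.hasFDerivAt (mul_ne_zero hx hg)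
  have h2 : HasFDerivAt (fun y : ℍ => y * g) (rm g) x := (rm g).hasFDerivAt
  have h3 := HasFDerivAt.comp x h1 h2
  have e : (F : ℍ → ℝ) ∘ (fun y : ℍ => y * g) = fun y => c * F y := funext hF
  rw [e] at h3
  have h4 := (F.hasFDerivAt hx).const_mul c
  have h5 := h3.unique h4
  have h6 := congrArg (fun L : ℍ →L[ℝ] ℝ => L v) h5
  simpa using h6

theorem Par.DZ {σ : ℝ} {F : SF} (hF : Par σ F) (c : Fin 3) : Par σ (DZ c F) := by
  constructor
  · intro x
    by_cases hx : x = 0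
    · subst hx; simp [map_zero']
    · rw [SF.DZ, Z_apply, Z_apply, ← mul_assoc, fderiv_rmul F qI_ne hx _ hF.mulI]
  · intro x
    by_cases hx : x = 0
    · subst hx; simp [map_zero']
    · rw [SF.DZ, Z_apply, Z_apply, ← mul_assoc, fderiv_rmul F qK_ne hx _ (c := 1)
        (fun x => by rw [hF.mulK, one_mul]), one_mul]

theorem Par.Lap {σ : ℝ} {F : SF} (hF : Par σ F) : Par σ (Lap F) := by
  rw [Lap_eq]
  exact ((hF.DZ 0).DZ 0).add ((hF.DZ 1).DZ 1) |>.add ((hF.DZ 2).DZ 2)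

theorem Par.DX {σ : ℝ} {F : SF} (hF : Par σ F) : Par (-σ) (DX F) := by
  constructor
  · intro x
    by_cases hx : x = 0
    · subst hx; simp [map_zero']
    · have e : x * qI * ((1 / 2 : ℝ) • qK) = -(x * ((1 / 2 : ℝ) • qK)) * qI := by
        simp only [mul_smul_comm, smul_mul_assoc, mul_assoc, neg_mul, qI_mul_qK, qK_mul_qI,
          mul_neg, smul_neg]
      rw [SF.DX, SF.R_apply, SF.R_apply, e, fderiv_rmul F qI_ne hx _ hF.mulI, map_neg]
      ring
  · intro x
    by_cases hx : x = 0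
    · subst hx; simp [map_zero']
    · have e : x * qK * ((1 / 2 : ℝ) • qK) = (x * ((1 / 2 : ℝ) • qK)) * qK := by
        rw [mul_assoc, mul_assoc, mul_smul_comm, smul_mul_assoc]
      rw [SF.DX, SF.R_apply, SF.R_apply, e, fderiv_rmul F qK_ne hx _ (c := 1)
        (fun x => by rw [hF.mulK, one_mul]), one_mul]

theorem par_lam2 {P : SF} (hP : Adm P) : Par (-1) (cm lam.d2 P) := by
  have h0 : Par 1 P := par_of_isKlein (isKlein_of_isU hP.isU)
  have h1 := h0.DX
  constructor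
  · intro x
    by_cases hx : x = 0
    · subst hx; simp [map_zero']
    · rw [cm_apply _ hP.pos (mul_ne_zero hx qI_ne), cm_apply _ hP.pos hx,
        lam_d2 (hP.pos _ (mul_ne_zero hx qI_ne)), lam_d2 (hP.pos _ hx), h0.mulI, h1.mulI]
      dsimp only
      rw [one_mul, neg_mul, one_mul, neg_sq, neg_div, neg_mul, one_mul]
  · intro x
    by_cases hx : x = 0
    · subst hx; simp [map_zero']
    · rw [cm_apply _ hP.pos (mul_ne_zero hx qK_ne), cm_apply _ hP.pos hx, h0.mulK, h1.mulK]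

/-! ### Invariance -/

theorem DV_of_isU {F : SF} (h : IsU F) : DV F = 0 := by
  apply ext'
  intro x hx
  have h1 := hasDerivAt_DV F hx 0
  have e : (fun t => F (x * rot qI t)) = fun _ => F x := funext fun t => h.rotI x t
  rw [e] at h1
  have := h1.unique (hasDerivAt_const _ _)
  simpa [rot_zero] using this

theorem DX_of_isE {F : SF} (h : IsE F) : DX F = 0 := by
  apply ext'
  intro x hx
  have h1 := hasDerivAt_DX F hx 0
  have e : (fun t => F (x * rot qK t)) = fun _ => F x := funext fun t => h.rotK x t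
  rw [e] at h1
  have := h1.unique (hasDerivAt_const _ _)
  simpa [rot_zero] using this

end Pool.Agent.MP85963d.H69
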